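import Pool.Agent.Lib.B06970.Defs

/-!
An infinite strictly increasing chain below `M` makes `e M` infinite-dimensional.
-/

namespace Pool.Agent.Lib.B06970

open Submodule Pool.Agent.Results.MP_b06970_an.Dichotomy

variable {E : Type*} [NormedAddCommGroup E] [InnerProductSpace ℂ E]
variable {H : Type*} [NormedAddCommGroup H] [InnerProductSpace ℂ H] {A P J : H →L[ℂ] H}

/-- `M` contains an infinite strictly increasing chain of closed invariant subspaces. -/
def InfLength (M : LatInv A) : Prop :=
  ∃ f : ℕ → LatInv A, StrictMono f ∧ ∀ n, f n ≤ M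

theorem infdim (e : LatInv A ≃o ClosedSubmodule ℂ E) (M : LatInv A) (hM : InfLength M) :
    ¬ FiniteDimensional ℂ (e M).toSubmodule := by
  intro hfd
  obtain ⟨f, hf, hle⟩ := hM
  have h1 : ∀ n, (e (f n)).toSubmodule ≤ (e M).toSubmodule := by
    intro n
    have : e (f n) ≤ e M := e.le_iff_le.mpr (hle n)
    exact this
  have h2 : ∀ n, FiniteDimensional ℂ (e (f n)).toSubmodule := fun n =>
    Submodule.finiteDimensional_of_le (h1 n)
  have h3 : ∀ n, Module.finrank ℂ (e (f n)).toSubmodule
      < Module.finrank ℂ (e (f (n + 1))).toSubmodule := by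
    intro n
    have := h2 (n + 1)
    apply Submodule.finrank_lt_finrank_of_lt
    have hlt : e (f n) < e (f (n + 1)) := e.lt_iff_lt.mpr (hf (Nat.lt_succ_self n))
    exact hlt
  have h4 : ∀ n, n ≤ Module.finrank ℂ (e (f n)).toSubmodule := by
    intro n
    induction n with
    | zero => exact Nat.zero_le _
    | succ n ih => exact lt_of_le_of_lt ih (h3 n)
  have h5 := h4 (Module.finrank ℂ (e M).toSubmodule + 1)
  have h6 := Submodule.finrank_mono (h1 (Module.finrank ℂ (e M).toSubmodule + 1))
  omega

end Pool.Agent.Lib.B06970
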