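import Pool.Agent.Lib.B06970.Defs

/-!
Restriction of `A` to a closed invariant subspace `K`: the lattice of the restriction is the
lattice of closed subspaces of `e K`.
-/

namespace Pool.Agent.Lib.B06970

open Submodule Pool.Agent.Results.MP_b06970_an.Dichotomy

variable {E : Type*} [NormedAddCommGroup E] [InnerProductSpace ℂ E]
variable {H : Type*} [NormedAddCommGroup H] [InnerProductSpace ℂ H] {A P J : H →L[ℂ] H}

/-- the restriction of `A` to the closed invariant subspace `K` -/
noncomputable def res (K : LatInv A) : K.1 →L[ℂ] K.1 :=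
  (A.comp K.1.subtypeL).codRestrict K.1 (fun x => K.2.2 x x.2)

lemma res_apply (K : LatInv A) (x : K.1) : ((res K x : K.1) : H) = A x := rfl

private lemma closed_map {V : Type*} [NormedAddCommGroup V] [InnerProductSpace ℂ V]
    (F : Submodule ℂ V) (hF : IsClosed (F : Set V)) (R : Submodule ℂ F)
    (hR : IsClosed (R : Set F)) : IsClosed ((R.map F.subtype : Submodule ℂ V) : Set V) := by
  have h := hF.isClosedEmbedding_subtypeVal.isClosedMap _ hR
  have e1 : ((R.map F.subtype : Submodule ℂ V) : Set V) = Subtype.val '' (R : Set F) := by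
    ext x
    simp
  rw [e1]
  exact h

/-- a subspace of `K` as a subspace of `H` -/
private noncomputable def up (K : LatInv A) (Q : LatInv (res K)) : LatInv A :=
  ⟨Q.1.map K.1.subtype, closed_map K.1 K.2.1 Q.1 Q.2.1, by
    rintro x ⟨y, hy, rfl⟩
    exact ⟨res K y, Q.2.2 y hy, rfl⟩⟩

/-- intersection with `K` -/
private noncomputable def dn (K : LatInv A) (Q : LatInv A) : LatInv (res K) :=
  ⟨Q.1.comap K.1.subtype, Q.2.1.preimage K.1.subtypeL.continuous, by
    intro x hx
    exact Q.2.2 (x : H) hx⟩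

private noncomputable def upE (F : ClosedSubmodule ℂ E) (R : ClosedSubmodule ℂ F.toSubmodule) :
    ClosedSubmodule ℂ E :=
  ⟨R.toSubmodule.map F.toSubmodule.subtype, closed_map F.toSubmodule F.isClosed R.toSubmodule
    R.isClosed⟩

private noncomputable def dnE (F : ClosedSubmodule ℂ E) (R : ClosedSubmodule ℂ E) :
    ClosedSubmodule ℂ F.toSubmodule :=
  ⟨R.toSubmodule.comap F.toSubmodule.subtype,
    R.isClosed.preimage F.toSubmodule.subtypeL.continuous⟩

private lemma up_le (K : LatInv A) (Q : LatInv (res K)) : up K Q ≤ K := by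
  rintro x ⟨y, hy, rfl⟩
  exact y.2

private lemma up_dn (K : LatInv A) (Q : LatInv A) (h : Q ≤ K) : up K (dn K Q) = Q := by
  apply Subtype.ext
  ext x
  constructor
  · rintro ⟨y, hy, rfl⟩
    exact hy
  · intro hx
    exact ⟨⟨x, h hx⟩, hx, rfl⟩

private lemma dn_up (K : LatInv A) (Q : LatInv (res K)) : dn K (up K Q) = Q := by
  apply Subtype.ext
  ext x
  constructor
  · rintro ⟨y, hy, hxy⟩
    have : y = x := Subtype.ext hxy
    rw [← this]; exact hy
  · intro hx
    exact ⟨x, hx, rfl⟩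

private lemma upE_le (F : ClosedSubmodule ℂ E) (R : ClosedSubmodule ℂ F.toSubmodule) :
    upE F R ≤ F := by
  rintro x ⟨y, hy, rfl⟩
  exact y.2

private lemma upE_dnE (F R : ClosedSubmodule ℂ E) (h : R ≤ F) : upE F (dnE F R) = R := by
  apply le_antisymm
  · rintro x ⟨y, hy, rfl⟩
    exact hy
  · intro x hx
    exact ⟨⟨x, h hx⟩, hx, rfl⟩

private lemma dnE_upE (F : ClosedSubmodule ℂ E) (R : ClosedSubmodule ℂ F.toSubmodule) :
    dnE F (upE F R) = R := by
  apply le_antisymm
  · rintro x ⟨y, hy, hxy⟩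
    have : y = x := Subtype.ext hxy
    rw [← this]; exact hy
  · intro x hx
    exact ⟨x, hx, rfl⟩

private lemma dnE_le (F R S : ClosedSubmodule ℂ E) (hR : R ≤ F) :
    dnE F R ≤ dnE F S ↔ R ≤ S := by
  constructor
  · intro h x hx
    have h1 : (⟨x, hR hx⟩ : F.toSubmodule) ∈ dnE F R := hx
    exact h h1
  · intro h x hx
    exact h hx

private lemma up_le_up (K : LatInv A) (Q Q' : LatInv (res K)) :
    up K Q ≤ up K Q' ↔ Q ≤ Q' := by
  constructor
  · intro h x hx
    have h1 : (x : H) ∈ (up K Q).1 := ⟨x, hx, rfl⟩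
    obtain ⟨y, hy, hxy⟩ := h h1
    have : y = x := Subtype.ext hxy
    rw [← this]; exact hy
  · intro h x hx
    obtain ⟨y, hy, hxy⟩ := hx
    exact ⟨y, h hy, hxy⟩

theorem restr (e : LatInv A ≃o ClosedSubmodule ℂ E) (K : LatInv A) :
    ∃ e2 : LatInv (res K) ≃o ClosedSubmodule ℂ (e K).toSubmodule,
      ∀ (Q : LatInv A) (Q2 : LatInv (res K)), Q ≤ K → Q2.1 = Q.1.comap K.1.subtype →
        (e2 Q2).toSubmodule = (e Q).toSubmodule.comap (e K).toSubmodule.subtype := by
  refine ⟨{ toFun := fun Q => dnE (e K) (e (up K Q))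
            invFun := fun R => dn K (e.symm (upE (e K) R))
            left_inv := ?_
            right_inv := ?_
            map_rel_iff' := ?_ }, ?_⟩
  · intro Q
    have h1 : e (up K Q) ≤ e K := e.le_iff_le.mpr (up_le K Q)
    show dn K (e.symm (upE (e K) (dnE (e K) (e (up K Q))))) = Q
    rw [upE_dnE _ _ h1, OrderIso.symm_apply_apply, dn_up]
  · intro R
    have h1 : e.symm (upE (e K) R) ≤ K := by
      rw [OrderIso.symm_apply_le]
      exact upE_le _ _
    show dnE (e K) (e (up K (dn K (e.symm (upE (e K) R))))) = R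
    rw [up_dn _ _ h1, OrderIso.apply_symm_apply, dnE_upE]
  · intro Q Q'
    have h1 : e (up K Q) ≤ e K := e.le_iff_le.mpr (up_le K Q)
    show dnE (e K) (e (up K Q)) ≤ dnE (e K) (e (up K Q')) ↔ Q ≤ Q'
    rw [dnE_le _ _ _ h1, e.le_iff_le, up_le_up]
  · intro Q Q2 hQ h2
    have h3 : Q2 = dn K Q := Subtype.ext h2
    show (dnE (e K) (e (up K Q2))).toSubmodule = _
    rw [h3, up_dn _ _ hQ]
    rfl

end Pool.Agent.Lib.B06970
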