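import Pool.Agent.Lib.B06970.Core
import Pool.Agent.Lib.B06970.Restr
import Pool.Agent.Lib.B06970.FinLen

/-!
Positive angle: if `M` and `N` are closed invariant subspaces with `M ⊓ N = ⊥`, `M ⊔ N` closed,
`M ≠ ⊥`, and `N` contains an infinite strictly increasing chain of closed invariant subspaces, then
`A` is scalar. (`core` for the restriction of `A` to `M ⊔ N`.)
-/

set_option autoImplicit false

namespace Pool.Agent.Lib.B06970

open Submodule Pool.Agent.Results.MP_b06970_an.Dichotomy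

variable {E : Type*} [NormedAddCommGroup E] [InnerProductSpace ℂ E] [CompleteSpace E]
variable {H : Type*} [NormedAddCommGroup H] [InnerProductSpace ℂ H] [CompleteSpace H]
  {A : H →L[ℂ] H}

theorem angle_aux (e : LatInv A ≃o ClosedSubmodule ℂ E) {M N' : LatInv A} (hM : M.1 ≠ ⊥)
    (hd : M.1 ⊓ N'.1 = ⊥) (hc : IsClosed ((M.1 ⊔ N'.1 : Submodule ℂ H) : Set H))
    (hN : InfLength N') : ∃ c : ℂ, A = c • ContinuousLinearMap.id ℂ H := by
  -- the restriction
  let K : LatInv A := ⟨M.1 ⊔ N'.1, hc, inv_sup M.2.2 N'.2.2⟩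
  have hMK : M ≤ K := (le_sup_left : M.1 ≤ M.1 ⊔ N'.1)
  have hNK : N' ≤ K := (le_sup_right : N'.1 ≤ M.1 ⊔ N'.1)
  obtain ⟨e2, he2⟩ := restr e K
  have : CompleteSpace K.1 := K.2.1.completeSpace_coe
  have : CompleteSpace (e K).toSubmodule := (e K).isClosed.completeSpace_coe
  let p : Submodule ℂ K.1 := M.1.comap K.1.subtype
  let q : Submodule ℂ K.1 := N'.1.comap K.1.subtype
  have hp : IsClosed (p : Set K.1) := M.2.1.preimage K.1.subtypeL.continuous
  have hq : IsClosed (q : Set K.1) := N'.2.1.preimage K.1.subtypeL.continuous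
  have hpq : IsCompl p q := by
    constructor
    · rw [disjoint_iff, eq_bot_iff]
      rintro x ⟨h1, h2⟩
      have h3 : (x : H) ∈ M.1 ⊓ N'.1 := ⟨h1, h2⟩
      rw [hd, Submodule.mem_bot] at h3
      rw [Submodule.mem_bot]
      exact Subtype.ext h3
    · rw [codisjoint_iff, eq_top_iff]
      rintro x -
      have hx : (x : H) ∈ M.1 ⊔ N'.1 := x.2
      obtain ⟨m, hm, n, hn, hmn⟩ := Submodule.mem_sup.mp hx
      have h1 : (⟨m, hMK hm⟩ : K.1) ∈ p := hm
      have h2 : (⟨n, hNK hn⟩ : K.1) ∈ q := hn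
      have h3 : x = ⟨m, hMK hm⟩ + ⟨n, hNK hn⟩ := Subtype.ext hmn.symm
      rw [h3]
      exact Submodule.add_mem_sup h1 h2
  have ht : IsTopCompl p q := IsCompl.isTopCompl_of_isClosed hpq hp hq
  let P : K.1 →L[ℂ] K.1 := p.projectionL q ht
  have hpi : ∀ x ∈ p, res K x ∈ p := fun x hx => M.2.2 (x : H) hx
  have hqi : ∀ x ∈ q, res K x ∈ q := fun x hx => N'.2.2 (x : H) hx
  have hP1 : ∀ x, P x = x ↔ x ∈ p := fun x => projectionL_eq_self_iff ht x
  have hP0 : ∀ x, P x = 0 ↔ x ∈ q := fun x => projectionL_apply_eq_zero_iff ht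
  have hPp : ∀ x, P x ∈ p := fun x => projectionL_apply_mem ht x
  have hPP : P * P = P := by
    ext1 x
    exact (hP1 _).mpr (hPp x)
  have hPq : ∀ x, x - P x ∈ q := by
    intro x
    rw [← hP0, map_sub, (hP1 _).mpr (hPp x), sub_self]
  have hPA : ∀ x, P (res K x) = res K (P x) := by
    intro x
    have h1 : res K x = res K (P x) + res K (x - P x) := by
      rw [← map_add, add_sub_cancel]
    rw [h1, map_add, (hP1 _).mpr (hpi _ (hPp x)), (hP0 _).mpr (hqi _ (hPq x)), add_zero]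
  -- the subspaces of `e K`
  let pL : LatInv (res K) := ⟨p, hp, hpi⟩
  let qL : LatInv (res K) := ⟨q, hq, hqi⟩
  have hkq : kerL P hPA = qL := by
    apply Subtype.ext
    ext x
    exact hP0 x
  have hp0 : p ≠ ⊥ := by
    intro h
    apply hM
    rw [eq_bot_iff]
    intro x hx
    have h1 : (⟨x, hMK hx⟩ : K.1) ∈ p := hx
    rw [h, Submodule.mem_bot] at h1
    rw [Submodule.mem_bot]
    exact congrArg Subtype.val h1
  have hv : ∃ v0 ∈ e2 pL, v0 ≠ 0 := by
    by_contra hcon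
    push Not at hcon
    apply hp0
    have h1 : p ≤ N e2 0 := by
      rw [le_iff e2 hp hpi (N_closed e2 0) (N_inv e2 0)]
      intro u hu
      rw [hcon u hu]
      exact Submodule.zero_mem _
    rw [N_zero] at h1
    exact eq_bot_iff.mpr h1
  obtain ⟨v0, hv0, hv00⟩ := hv
  have hNv : N e2 v0 ≤ p := (N_le e2 hp hpi).mpr hv0
  have hv0P : ∀ x ∈ N e2 v0, P x = x := fun x hx => (hP1 x).mpr (hNv hx)
  have hv0q : v0 ∉ e2 (kerL P hPA) := by
    rw [hkq]
    intro h
    apply hv00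
    have h1 : N e2 v0 ≤ q := (N_le e2 hq hqi).mpr h
    apply N_eq_bot e2
    rw [eq_bot_iff]
    intro x hx
    have h2 : x ∈ p ⊓ q := ⟨hNv hx, h1 hx⟩
    rwa [hpq.inf_eq_bot] at h2
  have hinf : ¬ FiniteDimensional ℂ (e2 (kerL P hPA)).toSubmodule := by
    rw [hkq, he2 N' qL hNK rfl]
    intro hfd
    apply infdim e N' hN
    have hle : (e N').toSubmodule ≤ (e K).toSubmodule := e.le_iff_le.mpr hNK
    exact (Submodule.comapSubtypeEquivOfLe hle).finiteDimensional
  obtain ⟨c, hc'⟩ := core e2 hPP hPA hv00 hv0q hv0P hinf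
  -- an eigenvector
  obtain ⟨y, hy, hy0⟩ := (Submodule.ne_bot_iff _).mp hM
  have hAy : A y = c • y := by
    have h1 := congrArg (fun T : K.1 →L[ℂ] K.1 => ((T ⟨y, hMK hy⟩ : K.1) : H)) hc'
    exact h1
  have hli : ∀ z ∈ (ℂ ∙ y), A z ∈ (ℂ ∙ y) := by
    intro z hz
    obtain ⟨a, rfl⟩ := Submodule.mem_span_singleton.mp hz
    rw [map_smul, hAy]
    exact Submodule.smul_mem _ _ (Submodule.smul_mem _ _ (Submodule.mem_span_singleton_self _))
  have hlc : IsClosed ((ℂ ∙ y : Submodule ℂ H) : Set H) := Submodule.closed_of_finiteDimensional _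
  have hu : ∃ u ∈ e ⟨(ℂ ∙ y), hlc, hli⟩, u ≠ 0 := by
    by_contra hcon
    push Not at hcon
    apply hy0
    have h1 : (ℂ ∙ y) ≤ N e 0 := by
      rw [le_iff e hlc hli (N_closed e 0) (N_inv e 0)]
      intro u hu
      rw [hcon u hu]
      exact Submodule.zero_mem _
    rw [N_zero] at h1
    exact (Submodule.mem_bot ℂ).mp (h1 (Submodule.mem_span_singleton_self y))
  obtain ⟨u, hu, hu0⟩ := hu
  have hle : N e u ≤ (ℂ ∙ y) := (N_le e hlc hli).mpr hu
  have : FiniteDimensional ℂ (N e u) := Submodule.finiteDimensional_of_le hle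
  exact scalar e hu0

/-- Positive angle, as used in the result. -/
theorem angle (e : LatInv A ≃o ClosedSubmodule ℂ E)
    (hA : ¬ ∃ c : ℂ, A = c • ContinuousLinearMap.id ℂ H) {M N' : LatInv A} (hM : M.1 ≠ ⊥)
    (hd : M.1 ⊓ N'.1 = ⊥) (hcl : IsClosed ((M.1 ⊔ N'.1 : Submodule ℂ H) : Set H)) :
    ¬ ∃ c : ℕ → LatInv A, StrictMono c ∧ ∀ n, c n ≤ N' :=
  fun h => hA (angle_aux e hM hd hcl h)

end Pool.Agent.Lib.B06970
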