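import Pool.Agent.Lib.B06970.Defs

/-! Vectors of the atom of a limit are approximated by finite sums of vectors of the atoms of a
tail of the sequence. -/

set_option autoImplicit false

namespace Pool.Agent.Lib.B06970

open Submodule Pool.Agent.Results.MP_b06970_an.Dichotomy

variable {E : Type*} [NormedAddCommGroup E] [InnerProductSpace ℂ E]
variable {H : Type*} [NormedAddCommGroup H] [InnerProductSpace ℂ H] {A : H →L[ℂ] H}

/-- Row Approx. PROOF: `Q := (⨆ n ≥ k, N e (y n)).topologicalClosure` is closed and invariant;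
`N e (y n) ≤ Q` gives `y n ∈ e Q` for `n ≥ k` (`N_le`), `e Q` is closed and `y n → y`, so
`y ∈ e Q`, so `N e y ≤ Q`. So `g` is within `δ` of some element of `⨆ n ≥ k, N e (y n)`, which is
a finite sum (`Submodule.mem_iSup_iff_exists_finsupp`, with the family
`n ↦ if k ≤ n then N e (y n) else ⊥`). -/
theorem approx (e : LatInv A ≃o ClosedSubmodule ℂ E) {y : ℕ → E} {y' : E}
    (hy : Filter.Tendsto y Filter.atTop (nhds y')) {g : H} (hg : g ∈ N e y') (k : ℕ)
    {δ : ℝ} (hδ : 0 < δ) :
    ∃ f : ℕ →₀ H, (∀ n, f n ∈ N e (y n)) ∧ (∀ n, n < k → f n = 0) ∧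
      ‖g - f.sum fun _ z => z‖ ≤ δ := by
  let F : ℕ → Submodule ℂ H := fun n => if k ≤ n then N e (y n) else ⊥
  have hF1 : ∀ n, k ≤ n → F n = N e (y n) := fun n hn => if_pos hn
  have hF2 : ∀ n, ¬ k ≤ n → F n = ⊥ := fun n hn => if_neg hn
  let S : Submodule ℂ H := ⨆ n, F n
  let Q : Submodule ℂ H := S.topologicalClosure
  have hSi : ∀ x ∈ S, A x ∈ S := by
    have h1 : S ≤ S.comap (A : H →ₗ[ℂ] H) := by
      refine iSup_le fun n x hx => ?_
      show A x ∈ S
      by_cases hn : k ≤ n
      · rw [hF1 n hn] at hx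
        have h2 : A x ∈ F n := by
          rw [hF1 n hn]
          exact N_inv e (y n) x hx
        exact (le_iSup F n) h2
      · rw [hF2 n hn, Submodule.mem_bot] at hx
        rw [hx, map_zero]
        exact S.zero_mem
    exact fun x hx => h1 hx
  have hQc : IsClosed (Q : Set H) := Submodule.isClosed_topologicalClosure _
  have hQi : ∀ x ∈ Q, A x ∈ Q := by
    intro x hx
    have hx' : x ∈ closure (S : Set H) := hx
    have : A x ∈ closure (S : Set H) := map_mem_closure A.continuous hx' fun z hz => hSi z hz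
    exact this
  have hyQ : ∀ n, k ≤ n → y n ∈ e ⟨Q, hQc, hQi⟩ := by
    intro n hn
    rw [← N_le e hQc hQi, ← hF1 n hn]
    exact (le_iSup F n).trans (Submodule.le_topologicalClosure _)
  have hy' : y' ∈ e ⟨Q, hQc, hQi⟩ := by
    have hcl : IsClosed ((e ⟨Q, hQc, hQi⟩ : ClosedSubmodule ℂ E) : Set E) :=
      (e ⟨Q, hQc, hQi⟩).isClosed
    exact hcl.mem_of_tendsto hy ((Filter.eventually_ge_atTop k).mono fun n hn => hyQ n hn)
  have hgQ : g ∈ closure (S : Set H) := ((N_le e hQc hQi).mpr hy') hg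
  obtain ⟨s, hs, hds⟩ := Metric.mem_closure_iff.mp hgQ δ hδ
  have hs' : s ∈ ⨆ n, F n := hs
  obtain ⟨f, hf, hfs⟩ := (Submodule.mem_iSup_iff_exists_finsupp F s).mp hs'
  refine ⟨f, fun n => ?_, fun n hn => ?_, ?_⟩
  · by_cases hn : k ≤ n
    · have := hf n
      rwa [hF1 n hn] at this
    · have := hf n
      rw [hF2 n hn, Submodule.mem_bot] at this
      rw [this]
      exact Submodule.zero_mem _
  · have := hf n
    rwa [hF2 n (by omega), Submodule.mem_bot] at this
  · rw [hfs, ← dist_eq_norm]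
    exact hds.le

end Pool.Agent.Lib.B06970
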