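import Pool.Agent.Lib.B06970.Defs

set_option autoImplicit false

namespace Pool.Agent.Lib.B06970

open Submodule Pool.Agent.Results.MP_b06970_an.Dichotomy

variable {E : Type*} [NormedAddCommGroup E] [InnerProductSpace ℂ E]
variable {H : Type*} [NormedAddCommGroup H] [InnerProductSpace ℂ H] {A : H →L[ℂ] H}

/-- Row Inj. PROOF: take `w ∈ W = e (ker P)`, `w ≠ 0`, `x ∈ N e (v0 + w)`. `P x ∈ N e v0`
(`N_span` with `Q = {x | P x ∈ N e v0}`, closed invariant; `N e v0 ≤ Q` as `P = 1` there,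
`N e w ≤ Q` as `P = 0` on `N e w ≤ ker P`). `D x - x = D (P x) - P x` as `D = 1` on `ker P`
(`hker`), so it lies in `N e v0`; it also lies in `N e (v0 + w)` by `Sc ... 1`; `disj`:
`D x = x`, so `D (P x) = P x`. Some `x` has `P x ≠ 0`: otherwise `N e (v0 + w) ≤ ker P`, so
`v0 + w ∈ W`, `v0 ∈ W`. `{y ∈ N e v0 | D y = y}` is closed, invariant, nonzero, so it is
`N e v0` (`atom`). -/
theorem fix_of_sc_one (e : LatInv A ≃o ClosedSubmodule ℂ E) {P : H →L[ℂ] H}
    (hPP : ∀ x, P (P x) = P x) (hPA : ∀ x, P (A x) = A (P x)) {v0 : E}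
    (hv0 : v0 ∉ e (kerL P hPA)) (hv0P : ∀ x ∈ N e v0, P x = x)
    (hdim : ∀ w ∈ e (kerL P hPA), ∃ w' ∈ e (kerL P hPA), w' ∉ (ℂ ∙ w)) {D : H →L[ℂ] H}
    (hcomm : ∀ x, D (A x) = A (D x)) (hD0 : ∀ x ∈ N e v0, D x ∈ N e v0)
    (hker : ∀ x, P x = 0 → D x = x) (h : Sc e v0 (e (kerL P hPA)) D 1) :
    ∀ x ∈ N e v0, D x = x := by
  obtain ⟨w, hw, hw'⟩ := hdim 0 (e (kerL P hPA)).toSubmodule.zero_mem
  have hw0 : w ≠ 0 := by
    rintro rfl
    exact hw' (Submodule.zero_mem _)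
  have hkle : ∀ u : E, N e u ≤ (kerL P hPA).1 ↔ u ∈ e (kerL P hPA) := fun u =>
    N_le e (kerL P hPA).2.1 (kerL P hPA).2.2
  have hNw : N e w ≤ (kerL P hPA).1 := (hkle w).2 hw
  -- `P` maps the atom of `v0 + w` to the atom of `v0`
  have hQc : IsClosed (((N e v0).comap (P : H →ₗ[ℂ] H) : Submodule ℂ H) : Set H) :=
    (N_closed e v0).preimage P.continuous
  have hQi : ∀ x ∈ (N e v0).comap (P : H →ₗ[ℂ] H), A x ∈ (N e v0).comap (P : H →ₗ[ℂ] H) := by
    intro x hx
    change P (A x) ∈ N e v0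
    rw [hPA]
    exact N_inv e v0 _ hx
  have hNvw : N e (v0 + w) ≤ (N e v0).comap (P : H →ₗ[ℂ] H) := by
    refine N_span e (u := v0) (v := w) ?_ hQc hQi ?_ ?_
    · exact Submodule.add_mem_sup (Submodule.mem_span_singleton_self v0)
        (Submodule.mem_span_singleton_self w)
    · intro x hx
      change P x ∈ N e v0
      rw [hv0P x hx]; exact hx
    · intro x hx
      change P x ∈ N e v0
      have h1 : P x = 0 := hNw hx
      rw [h1]; exact Submodule.zero_mem _
  have hline : v0 + w ∉ (ℂ ∙ v0) := by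
    intro h1
    obtain ⟨c, hc⟩ := Submodule.mem_span_singleton.mp h1
    have h2 : (c - 1) • v0 = w := by
      rw [sub_smul, one_smul, hc]; abel
    have h3 : c - 1 ≠ 0 := by
      intro h4
      rw [h4, zero_smul] at h2
      exact hw0 h2.symm
    apply hv0
    have h5 : v0 = (c - 1)⁻¹ • w := by
      rw [← h2, smul_smul, inv_mul_cancel₀ h3, one_smul]
    rw [h5]
    exact (e (kerL P hPA)).toSubmodule.smul_mem _ hw
  have hfix : ∀ x ∈ N e (v0 + w), D (P x) = P x := by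
    intro x hx
    have hPx : P x ∈ N e v0 := hNvw hx
    have h1 : D x ∈ N e (v0 + w) := by
      have := (h w hw x).2 hx
      rwa [one_smul] at this
    have h2 : D (x - P x) = x - P x := by
      apply hker
      rw [map_sub, hPP, sub_self]
    have h3 : D x - x = D (P x) - P x := by
      rw [map_sub] at h2
      have h2' : D x = D (P x) + (x - P x) := by rw [← h2]; abel
      rw [h2']; abel
    have h4 : D x - x ∈ N e (v0 + w) ⊓ N e v0 := by
      refine ⟨Submodule.sub_mem _ h1 hx, ?_⟩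
      rw [h3]
      exact Submodule.sub_mem _ (hD0 _ hPx) hPx
    rw [disj e hline, Submodule.mem_bot] at h4
    rw [h4] at h3
    exact (sub_eq_zero.1 h3.symm)
  have hex : ∃ x ∈ N e (v0 + w), P x ≠ 0 := by
    by_contra hcon
    push Not at hcon
    have h1 : N e (v0 + w) ≤ (kerL P hPA).1 := fun x hx => hcon x hx
    have h2 := (hkle (v0 + w)).1 h1
    apply hv0
    have h3 : v0 = (v0 + w) - w := by abel
    rw [h3]
    exact (e (kerL P hPA)).toSubmodule.sub_mem h2 hw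
  obtain ⟨x0, hx0, hPx0⟩ := hex
  -- the fixed points of `D` in the atom of `v0`
  let R : Submodule ℂ H := N e v0 ⊓ LinearMap.ker ((D - 1 : H →L[ℂ] H) : H →ₗ[ℂ] H)
  have hRmem : ∀ y, y ∈ R ↔ y ∈ N e v0 ∧ D y = y := by
    intro y
    constructor
    · rintro ⟨h1, h2⟩
      have h2' : (D - 1) y = 0 := h2
      refine ⟨h1, ?_⟩
      have h3 : D y - y = 0 := h2'
      exact sub_eq_zero.1 h3
    · rintro ⟨h1, h2⟩
      refine ⟨h1, ?_⟩
      change (D - 1) y = 0
      change D y - y = 0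
      rw [h2, sub_self]
  have hRc : IsClosed (R : Set H) := (N_closed e v0).inter (D - 1 : H →L[ℂ] H).isClosed_ker
  have hRi : ∀ y ∈ R, A y ∈ R := by
    intro y hy
    rw [hRmem] at hy ⊢
    exact ⟨N_inv e v0 y hy.1, by rw [hcomm, hy.2]⟩
  have hRle : R ≤ N e v0 := inf_le_left
  rcases atom e hRc hRi hRle with h1 | h1
  · exfalso
    have h2 : P x0 ∈ R := (hRmem _).2 ⟨hNvw hx0, hfix x0 hx0⟩
    rw [h1, Submodule.mem_bot] at h2
    exact hPx0 h2
  · intro x hx
    rw [← h1] at hx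
    exact ((hRmem x).1 hx).2

end Pool.Agent.Lib.B06970
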