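import Pool.Agent.Lib.B06970.OneParam
import Pool.Agent.Lib.B06970.Inj

set_option autoImplicit false

namespace Pool.Agent.Lib.B06970

open Submodule Pool.Agent.Results.MP_b06970_an.Dichotomy

variable {E : Type*} [NormedAddCommGroup E] [InnerProductSpace ℂ E] [CompleteSpace E]
variable {H : Type*} [NormedAddCommGroup H] [InnerProductSpace ℂ H] [CompleteSpace H]
  {A : H →L[ℂ] H}

omit [CompleteSpace E] in
private lemma hdim_of_inf {W : ClosedSubmodule ℂ E} (h : ¬ FiniteDimensional ℂ W.toSubmodule) :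
    ∀ w ∈ W, ∃ w' ∈ W, w' ∉ (ℂ ∙ w) := by
  intro w _
  by_contra hcon
  push Not at hcon
  apply h
  have hle : W.toSubmodule ≤ (ℂ ∙ w) := fun x hx => hcon x hx
  exact Submodule.finiteDimensional_of_le hle

private lemma Dop_apply (P a : H →L[ℂ] H) (t : ℝ) (x : H) :
    Dop P a t x = NormedSpace.exp (t • a) (P x) + (x - P x) := rfl

private lemma scalar_on_atom (e : LatInv A ≃o ClosedSubmodule ℂ E) {v0 : E} (hv00 : v0 ≠ 0)
    {μ : ℂ} (h : ∀ x ∈ N e v0, A x = μ • x) : ∃ c : ℂ, A = c • ContinuousLinearMap.id ℂ H := by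
  have hne : N e v0 ≠ ⊥ := fun h => hv00 (N_eq_bot e h)
  obtain ⟨x, hx, hx0⟩ := (Submodule.ne_bot_iff _).1 hne
  have hle : (ℂ ∙ x) ≤ N e v0 := by
    rw [Submodule.span_singleton_le_iff_mem]; exact hx
  have hc : IsClosed ((ℂ ∙ x : Submodule ℂ H) : Set H) := Submodule.closed_of_finiteDimensional _
  have hi : ∀ y ∈ (ℂ ∙ x), A y ∈ (ℂ ∙ x) := by
    intro y hy
    rw [h y (hle hy)]
    exact Submodule.smul_mem _ _ hy
  have hfd : FiniteDimensional ℂ (N e v0) := by
    rcases atom e hc hi hle with h1 | h1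
    · exfalso
      rw [Submodule.span_singleton_eq_bot] at h1
      exact hx0 h1
    · rw [← h1]; infer_instance
  exact scalar e hv00

theorem core (e : LatInv A ≃o ClosedSubmodule ℂ E) {P : H →L[ℂ] H} (hPP : P * P = P)
    (hPA : ∀ x, P (A x) = A (P x)) {v0 : E} (hv00 : v0 ≠ 0) (hv0 : v0 ∉ e (kerL P hPA))
    (hv0P : ∀ x ∈ N e v0, P x = x)
    (hinf : ¬ FiniteDimensional ℂ (e (kerL P hPA)).toSubmodule) :
    ∃ c : ℂ, A = c • ContinuousLinearMap.id ℂ H := by
  have hdim := hdim_of_inf hinf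
  have hAP : A * P = P * A := by
    ext x
    exact (hPA x).symm
  obtain ⟨c₁, h₁⟩ := one_param e (a := 1) hPP (by rw [one_mul, mul_one]) hPA (fun x => rfl) hv0
    hv0P (fun x hx => hx) hinf
  obtain ⟨c₂, h₂⟩ := one_param e (a := Complex.I • (1 : H →L[ℂ] H)) hPP
    (by rw [smul_mul_assoc, mul_smul_comm, one_mul, mul_one]) hPA
    (fun x => by
      change Complex.I • A x = A (Complex.I • x)
      rw [map_smul]) hv0 hv0P
    (fun x hx => Submodule.smul_mem _ _ hx) hinf
  obtain ⟨c₃, h₃⟩ := one_param e (a := A) hPP hAP hPA (fun x => rfl) hv0 hv0P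
    (fun x hx => N_inv e v0 x hx) hinf
  obtain ⟨t₁, t₂, t₃, hne, hrel⟩ := Pool.Agent.SIr.real_dep c₁ c₂ c₃
  set b : H →L[ℂ] H := t₁ • (1 : H →L[ℂ] H) + t₂ • (Complex.I • (1 : H →L[ℂ] H)) + t₃ • A with hb
  -- the exponentials
  have hexp : ∀ u : ℝ, NormedSpace.exp (u • b) =
      NormedSpace.exp ((u * t₁) • (1 : H →L[ℂ] H)) *
        NormedSpace.exp ((u * t₂) • (Complex.I • (1 : H →L[ℂ] H))) *
        NormedSpace.exp ((u * t₃) • A) := by
    intro u
    have e1 : Commute ((u * t₁) • (1 : H →L[ℂ] H)) ((u * t₂) • (Complex.I • (1 : H →L[ℂ] H))) :=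
      ((Commute.one_left _).smul_left _)
    have e2 : Commute ((u * t₁) • (1 : H →L[ℂ] H) + (u * t₂) • (Complex.I • (1 : H →L[ℂ] H)))
        ((u * t₃) • A) := by
      refine Commute.add_left ?_ ?_
      · exact ((Commute.one_left _).smul_left _)
      · exact (((Commute.one_left _).smul_left _).smul_left _)
    letI : NormedAlgebra ℚ (H →L[ℂ] H) := NormedAlgebra.restrictScalars ℚ ℂ (H →L[ℂ] H)
    rw [← NormedSpace.exp_add_of_commute e1, ← NormedSpace.exp_add_of_commute e2, hb]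
    congr 1
    simp only [smul_add, smul_smul]
  have hfix : ∀ u : ℝ, ∀ x ∈ N e v0, NormedSpace.exp (u • b) x = x := by
    intro u
    have hsc : Sc e v0 (e (kerL P hPA))
        (Dop P 1 (u * t₁) * Dop P (Complex.I • (1 : H →L[ℂ] H)) (u * t₂) * Dop P A (u * t₃)) 1 := by
      have h4 := sc_mul e (Complex.exp_ne_zero _)
        (sc_mul e (Complex.exp_ne_zero _) (h₁ (u * t₁)) (h₂ (u * t₂))) (h₃ (u * t₃))
      have h5 : Complex.exp (c₁ * ((u * t₁ : ℝ) : ℂ)) * Complex.exp (c₂ * ((u * t₂ : ℝ) : ℂ)) *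
          Complex.exp (c₃ * ((u * t₃ : ℝ) : ℂ)) = 1 := by
        rw [← Complex.exp_add, ← Complex.exp_add]
        have : c₁ * ((u * t₁ : ℝ) : ℂ) + c₂ * ((u * t₂ : ℝ) : ℂ) + c₃ * ((u * t₃ : ℝ) : ℂ) =
            (u : ℂ) * ((t₁ : ℂ) * c₁ + t₂ * c₂ + t₃ * c₃) := by
          push_cast; ring
        rw [this, hrel, mul_zero, Complex.exp_zero]
      rw [h5] at h4
      exact h4
    have a1 := Dop_adm e hPP (a := 1) (by rw [one_mul, mul_one]) hPA (fun x => rfl)
      hv0P (fun x hx => hx) (u * t₁)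
    have a2 := Dop_adm e hPP (a := Complex.I • (1 : H →L[ℂ] H))
      (by rw [smul_mul_assoc, mul_smul_comm, one_mul, mul_one]) hPA
      (fun x => by
        change Complex.I • A x = A (Complex.I • x)
        rw [map_smul]) hv0P (fun x hx => Submodule.smul_mem _ _ hx) (u * t₂)
    have a3 := Dop_adm e hPP (a := A) hAP hPA (fun x => rfl) hv0P
      (fun x hx => N_inv e v0 x hx) (u * t₃)
    have hall := fix_of_sc_one e (P := P) (fun x => by
        have := congrArg (fun T : H →L[ℂ] H => T x) hPP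
        exact this) hPA hv0 hv0P hdim
      (D := Dop P 1 (u * t₁) * Dop P (Complex.I • (1 : H →L[ℂ] H)) (u * t₂) * Dop P A (u * t₃))
      (fun x => by
        change Dop P 1 (u * t₁) (Dop P (Complex.I • (1 : H →L[ℂ] H)) (u * t₂)
          (Dop P A (u * t₃) (A x))) = _
        rw [a3.comm, a2.comm, a1.comm]; rfl)
      (fun x hx => a1.atom0 _ (a2.atom0 _ (a3.atom0 _ hx)))
      (fun x hx => by
        change Dop P 1 (u * t₁) (Dop P (Complex.I • (1 : H →L[ℂ] H)) (u * t₂)
          (Dop P A (u * t₃) x)) = _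
        have z : ∀ (a : H →L[ℂ] H) (t : ℝ), Dop P a t x = x := by
          intro a t
          rw [Dop_apply, hx, map_zero, sub_zero, zero_add]
        rw [z, z, z])
      hsc
    intro x hx
    have h6 := hall x hx
    have h7 : (Dop P 1 (u * t₁) * Dop P (Complex.I • (1 : H →L[ℂ] H)) (u * t₂) *
        Dop P A (u * t₃)) x = NormedSpace.exp (u • b) x := by
      change Dop P 1 (u * t₁) (Dop P (Complex.I • (1 : H →L[ℂ] H)) (u * t₂)
          (Dop P A (u * t₃) x)) = _
      have z : ∀ (a : H →L[ℂ] H) (t : ℝ) (y : H), y ∈ N e v0 →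
          Dop P a t y = NormedSpace.exp (t • a) y := by
        intro a t y hy
        rw [Dop_apply, hv0P y hy, sub_self, add_zero]
      rw [hexp u]
      change _ = NormedSpace.exp ((u * t₁) • (1 : H →L[ℂ] H))
        (NormedSpace.exp ((u * t₂) • (Complex.I • (1 : H →L[ℂ] H)))
          (NormedSpace.exp ((u * t₃) • A) x))
      rw [z _ _ _ (a2.atom0 _ (a3.atom0 _ hx)), z _ _ _ (a3.atom0 _ hx), z _ _ _ hx]
    rw [← h7, h6]
  have hbx : ∀ x ∈ N e v0, b x = 0 := by
    intro x hx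
    have hd : HasDerivAt (fun u : ℝ => NormedSpace.exp (u • b))
        (NormedSpace.exp ((0 : ℝ) • b) * b) 0 := hasDerivAt_exp_smul_const b (0 : ℝ)
    have hd2 := ((ContinuousLinearMap.apply ℂ H x).restrictScalars ℝ).hasFDerivAt.comp_hasDerivAt
      (0 : ℝ) hd
    have hc : ((ContinuousLinearMap.apply ℂ H x).restrictScalars ℝ : (H →L[ℂ] H) →L[ℝ] H) ∘
        (fun u : ℝ => NormedSpace.exp (u • b)) = fun _ => x := by
      funext u
      exact hfix u x hx
    rw [hc] at hd2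
    have h8 := hd2.unique (hasDerivAt_const (0 : ℝ) x)
    rw [zero_smul, NormedSpace.exp_zero, one_mul] at h8
    exact h8
  have hbx' : ∀ x ∈ N e v0, ((t₁ : ℂ) + t₂ * Complex.I) • x + (t₃ : ℂ) • A x = 0 := by
    intro x hx
    have h9 := hbx x hx
    have h10 : b x = (t₁ : ℂ) • x + (t₂ : ℂ) • (Complex.I • x) + (t₃ : ℂ) • A x := by
      rw [hb]
      rfl
    rw [h10] at h9
    rw [add_smul, mul_smul]
    exact h9
  have hne' : N e v0 ≠ ⊥ := fun h => hv00 (N_eq_bot e h)
  obtain ⟨x, hx, hx0⟩ := (Submodule.ne_bot_iff _).1 hne'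
  have ht3 : t₃ ≠ 0 := by
    intro h3
    apply hne
    have h11 := hbx' x hx
    rw [h3, Complex.ofReal_zero, zero_smul, add_zero] at h11
    rcases smul_eq_zero.1 h11 with h12 | h12
    · have hre := congrArg Complex.re h12
      have him := congrArg Complex.im h12
      simp at hre him
      exact ⟨hre, him, h3⟩
    · exact absurd h12 hx0
  refine scalar_on_atom e hv00 (μ := -((t₁ : ℂ) + t₂ * Complex.I) / t₃) ?_
  intro y hy
  have h13 := hbx' y hy
  have h14 : (t₃ : ℂ) ≠ 0 := Complex.ofReal_ne_zero.2 ht3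
  have h15 : (t₃ : ℂ) • A y = (-((t₁ : ℂ) + t₂ * Complex.I)) • y := by
    rw [neg_smul]
    exact eq_neg_of_add_eq_zero_right h13
  have h16 : A y = (t₃ : ℂ)⁻¹ • ((t₃ : ℂ) • A y) := by
    rw [smul_smul, inv_mul_cancel₀ h14, one_smul]
  rw [h16, h15, smul_smul, div_eq_inv_mul]

end Pool.Agent.Lib.B06970
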