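import Pool.Agent.Lib.B06970.Lines

/-! Definitions for the proof that a non scalar operator whose lattice of closed invariant
subspaces is the lattice of all closed subspaces of `E` commutes with no nontrivial bounded
idempotent. -/

set_option autoImplicit false

namespace Pool.Agent.Lib.B06970

open Submodule Pool.Agent.Results.MP_b06970_an.Dichotomy

variable {E : Type*} [NormedAddCommGroup E] [InnerProductSpace ℂ E]
variable {H : Type*} [NormedAddCommGroup H] [InnerProductSpace ℂ H] {A : H →L[ℂ] H}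

/-- `s` is the scalar of the operator `D`: `D` carries the atom of `v0 + w` onto the atom of
`s v0 + w` for every `w` in `W`. -/
def Sc (e : LatInv A ≃o ClosedSubmodule ℂ E) (v0 : E) (W : ClosedSubmodule ℂ E)
    (D : H →L[ℂ] H) (s : ℂ) : Prop :=
  ∀ w ∈ W, ∀ x : H, D x ∈ N e (s • v0 + w) ↔ x ∈ N e (v0 + w)

/-- The kernel of an operator commuting with `A`, as an element of `Lat A`. -/
def kerL (P : H →L[ℂ] H) (hP : ∀ x, P (A x) = A (P x)) : LatInv A :=
  ⟨LinearMap.ker (P : H →ₗ[ℂ] H),
    P.isClosed_ker, fun x hx => by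
      have hx' : P x = 0 := hx
      change P (A x) = 0
      rw [hP, hx', map_zero]⟩

/-- `exp (t a) P + (1 - P)` -/
noncomputable def Dop (P a : H →L[ℂ] H) (t : ℝ) : H →L[ℂ] H :=
  NormedSpace.exp (t • a) * P + (1 - P)

/-- `D` is an admissible operator with inverse `D'`. -/
structure Adm (e : LatInv A ≃o ClosedSubmodule ℂ E) (v0 : E) (W : ClosedSubmodule ℂ E)
    (D D' : H →L[ℂ] H) : Prop where
  left : ∀ x, D' (D x) = x
  right : ∀ x, D (D' x) = x
  comm : ∀ x, D (A x) = A (D x)
  atom0 : ∀ x ∈ N e v0, D x ∈ N e v0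
  atom0' : ∀ x ∈ N e v0, D' x ∈ N e v0
  fix : ∀ w ∈ W, ∀ x ∈ N e w, D x = x

end Pool.Agent.Lib.B06970
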