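import Pool.Agent.Lib.B06970.Defs

set_option autoImplicit false

namespace Pool.Agent.Lib.B06970

open Submodule Pool.Agent.Results.MP_b06970_an.Dichotomy

variable {E : Type*} [NormedAddCommGroup E] [InnerProductSpace ℂ E]
variable {H : Type*} [NormedAddCommGroup H] [InnerProductSpace ℂ H] [CompleteSpace H]
  {A : H →L[ℂ] H}

/-- Row ExpOp. PROOF: `exp a x` is the sum of `(n!)⁻¹ aⁿ x`, all in the closed `M`. -/
theorem exp_mem {M : Submodule ℂ H} (hc : IsClosed (M : Set H)) {a : H →L[ℂ] H}
    (ha : ∀ x ∈ M, a x ∈ M) : ∀ x ∈ M, NormedSpace.exp a x ∈ M := by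
  intro x hx
  have h1 := NormedSpace.exp_series_hasSum_exp' (𝕂 := ℂ) a
  have h2 : HasSum (fun n : ℕ => (((n.factorial : ℂ))⁻¹ • a ^ n) x) (NormedSpace.exp a x) :=
    h1.mapL (ContinuousLinearMap.apply ℂ H x)
  have hpow : ∀ n : ℕ, (a ^ n) x ∈ M := by
    intro n
    induction n with
    | zero => simpa using hx
    | succ n ih =>
      rw [pow_succ']
      exact ha _ ih
  have h3 : ∀ s : Finset ℕ, (∑ n ∈ s, (((n.factorial : ℂ))⁻¹ • a ^ n) x) ∈ (M : Set H) := by
    intro s
    apply Submodule.sum_mem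
    intro n _
    exact M.smul_mem _ (hpow n)
  exact hc.mem_of_tendsto h2 (Filter.Eventually.of_forall h3)

/-- Row ExpOp. PROOF: `P² = P`, `P` commutes with `exp (t a)` (`Commute.exp_left` etc. after
`Commute a P`), `exp ((s+t) a) = exp (s a) exp (t a)`. -/
theorem Dop_add {P a : H →L[ℂ] H} (hPP : P * P = P) (haP : a * P = P * a) (s t : ℝ) :
    Dop P a (s + t) = Dop P a s * Dop P a t := by
  unfold Dop
  have hst : NormedSpace.exp ((s + t) • a) = NormedSpace.exp (s • a) * NormedSpace.exp (t • a) := by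
    rw [add_smul]
    letI : NormedAlgebra ℚ (H →L[ℂ] H) := NormedAlgebra.restrictScalars ℚ ℂ (H →L[ℂ] H)
    apply NormedSpace.exp_add_of_commute
    exact ((Commute.refl a).smul_left s).smul_right t
  have hc : Commute P (NormedSpace.exp (t • a)) := by
    have h1 : Commute P a := haP.symm
    exact (h1.smul_right t).exp_right
  have hc' : P * NormedSpace.exp (t • a) = NormedSpace.exp (t • a) * P := hc
  rw [hst]
  have e1 : NormedSpace.exp (s • a) * P * (NormedSpace.exp (t • a) * P) =
      NormedSpace.exp (s • a) * NormedSpace.exp (t • a) * P := by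
    calc NormedSpace.exp (s • a) * P * (NormedSpace.exp (t • a) * P)
        = NormedSpace.exp (s • a) * (P * NormedSpace.exp (t • a)) * P := by
          simp only [mul_assoc]
      _ = NormedSpace.exp (s • a) * NormedSpace.exp (t • a) * (P * P) := by
          rw [hc']
          simp only [mul_assoc]
      _ = _ := by rw [hPP]
  have e2 : NormedSpace.exp (s • a) * P * (1 - P) = 0 := by
    rw [mul_sub, mul_one, mul_assoc, hPP, sub_self]
  have e3 : (1 - P) * (NormedSpace.exp (t • a) * P) = 0 := by
    rw [sub_mul, one_mul, ← mul_assoc, hc', mul_assoc, hPP, sub_self]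
  have e4 : (1 - P) * (1 - P) = 1 - P := by
    rw [sub_mul, one_mul, mul_sub, mul_one, hPP, sub_self, sub_zero]
  rw [mul_add, add_mul, add_mul, e1, e2, e3, e4]
  abel

/-- Row ExpOp. -/
theorem Dop_zero (P a : H →L[ℂ] H) : Dop P a 0 = 1 := by
  unfold Dop
  rw [zero_smul, NormedSpace.exp_zero, one_mul]
  abel

/-- Row ExpOp. PROOF: continuity of `t ↦ exp (t a)` (`NormedSpace.exp_continuous`). -/
theorem Dop_cont (P a : H →L[ℂ] H) : Continuous (Dop P a) := by
  unfold Dop
  letI : NormedAlgebra ℚ (H →L[ℂ] H) := NormedAlgebra.restrictScalars ℚ ℂ (H →L[ℂ] H)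
  have h1 : Continuous (fun t : ℝ => NormedSpace.exp (t • a)) :=
    NormedSpace.exp_continuous.comp (continuous_id.smul continuous_const)
  exact (h1.mul continuous_const).add continuous_const

/-- Row ExpOp. PROOF: `Dop P a (-t)` is the inverse (`Dop_add`, `Dop_zero`); commutes with `A`;
for `x ∈ N e v0`, `P x = x`, so `Dop P a t x = exp (t a) x ∈ N e v0` by `exp_mem`; for `w ∈ W`
`x ∈ N e w ≤ ker P` (`N_le`), so `Dop P a t x = x`. -/
theorem Dop_adm (e : LatInv A ≃o ClosedSubmodule ℂ E) {P a : H →L[ℂ] H} (hPP : P * P = P)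
    (haP : a * P = P * a) (hPA : ∀ x, P (A x) = A (P x)) (haA : ∀ x, a (A x) = A (a x))
    {v0 : E} (hv0 : ∀ x ∈ N e v0, P x = x) (ha0 : ∀ x ∈ N e v0, a x ∈ N e v0) (t : ℝ) :
    Adm e v0 (e (kerL P hPA)) (Dop P a t) (Dop P a (-t)) := by
  have hinv : ∀ r : ℝ, Dop P a (-r) * Dop P a r = 1 := by
    intro r
    rw [← Dop_add hPP haP, neg_add_cancel, Dop_zero]
  have hat : ∀ r : ℝ, ∀ x ∈ N e v0, Dop P a r x ∈ N e v0 := by
    intro r x hx
    have h1 : Dop P a r x = NormedSpace.exp (r • a) x := by
      unfold Dop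
      simp only [ContinuousLinearMap.add_apply, ContinuousLinearMap.sub_apply,
        ContinuousLinearMap.mul_apply, ContinuousLinearMap.one_apply, hv0 x hx, sub_self, add_zero]
    rw [h1]
    refine exp_mem (N_closed e v0) ?_ x hx
    intro y hy
    have h2 : (r • a) y = ((r : ℂ)) • (a y) := by
      rw [ContinuousLinearMap.smul_apply]
      exact (Complex.coe_smul r (a y)).symm
    rw [h2]
    exact (N e v0).smul_mem _ (ha0 y hy)
  refine ⟨?_, ?_, ?_, hat t, hat (-t), ?_⟩
  · intro x
    have := congrArg (fun T : H →L[ℂ] H => T x) (hinv t)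
    simpa using this
  · intro x
    have h := hinv (-t)
    rw [neg_neg] at h
    have := congrArg (fun T : H →L[ℂ] H => T x) h
    simpa using this
  · intro x
    have hPA' : Commute P A := by
      ext y
      exact hPA y
    have haA' : Commute a A := by
      ext y
      exact haA y
    have hE : Commute (NormedSpace.exp (t • a)) A := (haA'.smul_left t).exp_left
    have hD : Commute (Dop P a t) A := by
      unfold Dop
      exact (hE.mul_left hPA').add_left ((Commute.one_left A).sub_left hPA')
    have := congrArg (fun T : H →L[ℂ] H => T x) hD.eq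
    simpa using this
  · intro w hw x hx
    have h1 : N e w ≤ (kerL P hPA).1 := (N_le e (kerL P hPA).2.1 (kerL P hPA).2.2).2 hw
    have h2 : P x = 0 := h1 hx
    unfold Dop
    simp only [ContinuousLinearMap.add_apply, ContinuousLinearMap.sub_apply,
      ContinuousLinearMap.mul_apply, ContinuousLinearMap.one_apply, h2, map_zero, zero_add, sub_zero]

end Pool.Agent.Lib.B06970
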