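import Pool.Agent.Lib.B06970.Core

/-! The final step: one of the two complementary kernels is infinite-dimensional. -/

set_option autoImplicit false

namespace Pool.Agent.Lib.B06970

open Submodule Pool.Agent.Results.MP_b06970_an.Dichotomy

variable {E : Type*} [NormedAddCommGroup E] [InnerProductSpace ℂ E] [CompleteSpace E]
variable {H : Type*} [NormedAddCommGroup H] [InnerProductSpace ℂ H] [CompleteSpace H]
  {A : H →L[ℂ] H}

omit [CompleteSpace H] in
private lemma compl_comm {P : H →L[ℂ] H} (hPA : ∀ x, P (A x) = A (P x)) :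
    ∀ x, (1 - P) (A x) = A ((1 - P) x) := by
  intro x
  show A x - P (A x) = A (x - P x)
  rw [map_sub, hPA]

omit [CompleteSpace H] in
private lemma pp {P : H →L[ℂ] H} (hPP : P * P = P) (x : H) : P (P x) = P x :=
  congrArg (fun T : H →L[ℂ] H => T x) hPP

private theorem half (e : LatInv A ≃o ClosedSubmodule ℂ E) {P : H →L[ℂ] H} (hPP : P * P = P)
    (hPA : ∀ x, P (A x) = A (P x)) (hP0 : P ≠ 0)
    (hinf : ¬ FiniteDimensional ℂ (e (kerL P hPA)).toSubmodule) :
    ∃ c : ℂ, A = c • ContinuousLinearMap.id ℂ H := by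
  have hPA' := compl_comm hPA
  have hpp := pp hPP
  obtain ⟨v0, hv, hv00⟩ : ∃ v ∈ e (kerL (1 - P) hPA'), v ≠ 0 := by
    by_contra hcon
    push Not at hcon
    apply hP0
    have h1 : (kerL (1 - P) hPA').1 ≤ N e (0 : E) := by
      rw [le_iff e (kerL (1 - P) hPA').2.1 (kerL (1 - P) hPA').2.2 (N_closed e 0) (N_inv e 0)]
      intro v hv
      rw [hcon v hv]
      exact Submodule.zero_mem _
    rw [N_zero] at h1
    ext x
    have h2 : P x ∈ (kerL (1 - P) hPA').1 := by
      show P x - P (P x) = 0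
      rw [hpp, sub_self]
    have h3 := h1 h2
    rw [Submodule.mem_bot] at h3
    rw [h3]
    rfl
  have hle : N e v0 ≤ (kerL (1 - P) hPA').1 :=
    (N_le e (kerL (1 - P) hPA').2.1 (kerL (1 - P) hPA').2.2).2 hv
  have hv0P : ∀ x ∈ N e v0, P x = x := by
    intro x hx
    have h1 : x - P x = 0 := hle hx
    exact (sub_eq_zero.1 h1).symm
  have hv0 : v0 ∉ e (kerL P hPA) := by
    intro h
    apply hv00
    apply N_eq_bot e
    rw [eq_bot_iff]
    intro x hx
    have h1 : N e v0 ≤ (kerL P hPA).1 :=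
      (N_le e (kerL P hPA).2.1 (kerL P hPA).2.2).2 h
    have h2 : P x = 0 := h1 hx
    rw [Submodule.mem_bot, ← hv0P x hx, h2]
  exact core e hPP hPA hv00 hv0 hv0P hinf

/-- A non scalar operator whose lattice of closed invariant subspaces is the lattice of all
closed subspaces of an infinite-dimensional space commutes with no nontrivial bounded
idempotent. -/
theorem strongly_irreducible (e : LatInv A ≃o ClosedSubmodule ℂ E) (hE : ¬ FiniteDimensional ℂ E)
    (hA : ¬ ∃ c : ℂ, A = c • ContinuousLinearMap.id ℂ H) {P : H →L[ℂ] H} (hPP : P * P = P)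
    (hPA : ∀ x, P (A x) = A (P x)) : P = 0 ∨ P = 1 := by
  by_contra hcon
  push Not at hcon
  obtain ⟨hP0, hP1⟩ := hcon
  have hPA' := compl_comm hPA
  have hQQ : (1 - P) * (1 - P) = 1 - P := by
    rw [sub_mul, mul_sub, mul_sub, hPP]
    simp
  have hQ0 : (1 - P) ≠ 0 := fun h => hP1 (sub_eq_zero.1 h).symm
  by_cases h1 : FiniteDimensional ℂ (e (kerL P hPA)).toSubmodule
  swap
  · exact hA (half e hPP hPA hP0 h1)
  by_cases h2 : FiniteDimensional ℂ (e (kerL (1 - P) hPA')).toSubmodule
  swap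
  · exact hA (half e hQQ hPA' hQ0 h2)
  apply hE
  let Z : ClosedSubmodule ℂ E :=
    ⟨(e (kerL P hPA)).toSubmodule ⊔ (e (kerL (1 - P) hPA')).toSubmodule,
      Submodule.closed_of_finiteDimensional _⟩
  have hZ1 : (kerL P hPA) ≤ e.symm Z := by
    rw [OrderIso.le_symm_apply]
    intro x hx
    exact Submodule.mem_sup_left hx
  have hZ2 : (kerL (1 - P) hPA') ≤ e.symm Z := by
    rw [OrderIso.le_symm_apply]
    intro x hx
    exact Submodule.mem_sup_right hx
  have htop : ∀ x : H, x ∈ (e.symm Z).1 := by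
    intro x
    have h3 : x = (x - P x) + P x := by abel
    rw [h3]
    refine Submodule.add_mem _ (hZ1 ?_) (hZ2 ?_)
    · show P (x - P x) = 0
      rw [map_sub, pp hPP, sub_self]
    · show P x - P (P x) = 0
      rw [pp hPP, sub_self]
  have hall : ∀ v : E, v ∈ Z := by
    intro v
    have h3 := (N_le e (u := v) (e.symm Z).2.1 (e.symm Z).2.2).1 (fun x _ => htop x)
    have h4 : e ⟨(e.symm Z).1, (e.symm Z).2.1, (e.symm Z).2.2⟩ = Z := e.apply_symm_apply Z
    rwa [h4] at h3
  have hfin : FiniteDimensional ℂ Z.toSubmodule := by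
    show FiniteDimensional ℂ
      ((e (kerL P hPA)).toSubmodule ⊔ (e (kerL (1 - P) hPA')).toSubmodule : Submodule ℂ E)
    infer_instance
  have hZt : Z.toSubmodule = ⊤ := by
    rw [eq_top_iff]
    intro v _
    exact hall v
  rw [hZt] at hfin
  exact Module.Finite.equiv (Submodule.topEquiv (R := ℂ) (M := E))

end Pool.Agent.Lib.B06970
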