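import Mathlib

set_option autoImplicit false

namespace Pool.Agent.Lib.B06970

open Submodule

variable {E : Type*} [NormedAddCommGroup E] [InnerProductSpace ℂ E] [CompleteSpace E]

/-- a bounded functional that vanishes on `W` and is `1` at `v0` -/
private lemma exists_h0 {v0 : E} {W : Submodule ℂ E} (hW : IsClosed (W : Set E)) (hv0 : v0 ∉ W) :
    ∃ h : E →L[ℂ] ℂ, h v0 = 1 ∧ ∀ w ∈ W, h w = 0 := by
  have hC : CompleteSpace W := hW.completeSpace_coe
  have h1 : ∃ u ∈ Wᗮ, inner ℂ u v0 ≠ 0 := by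
    by_contra hcon
    push Not at hcon
    apply hv0
    rw [← Submodule.orthogonal_orthogonal W, Submodule.mem_orthogonal]
    exact hcon
  obtain ⟨u, hu, hne⟩ := h1
  refine ⟨(inner ℂ u v0)⁻¹ • innerSL ℂ u, ?_, ?_⟩
  · rw [_root_.smul_apply, innerSL_apply_apply, smul_eq_mul, inv_mul_cancel₀ hne]
  · intro w hw
    rw [_root_.smul_apply, innerSL_apply_apply,
      (Submodule.mem_orthogonal' W u).1 hu w hw, smul_zero]

omit [CompleteSpace E] in
/-- a bounded functional with prescribed summable values on an orthonormal sequence -/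
private lemma exists_h1 {w : ℕ → E} (hw : Orthonormal ℂ w) (ω : ℂ) {c : ℕ → ℂ}
    (hc : ∀ n : ℕ, ‖c n‖ ≤ (1 / 2 : ℝ) ^ n) :
    ∃ h : E →L[ℂ] ℂ, h (w 0) = -ω ∧ ∀ n, h (w (n + 1)) = c n := by
  set f : ℕ → (E →L[ℂ] ℂ) := fun n => c n • innerSL ℂ (w (n + 1)) with hf
  have hsum : Summable f := by
    refine Summable.of_norm_bounded (g := fun n : ℕ => (1 / 2 : ℝ) ^ n) summable_geometric_two ?_
    intro n
    rw [hf]
    have h1 : ‖c n • innerSL ℂ (w (n + 1))‖ = ‖c n‖ := by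
      rw [norm_smul, innerSL_apply_norm, hw.1, mul_one]
    exact h1.le.trans (hc n)
  have hS : ∀ x : E, HasSum (fun n => c n * inner ℂ (w (n + 1)) x) ((∑' n, f n) x) := by
    intro x
    have h1 := (ContinuousLinearMap.apply ℂ ℂ x).hasSum hsum.hasSum
    have h2 : (fun n => c n * inner ℂ (w (n + 1)) x) =
        fun n => (ContinuousLinearMap.apply ℂ ℂ x) (f n) := by
      funext n
      rfl
    rw [h2]
    exact h1
  have ho : ∀ i j : ℕ, inner ℂ (w i) (w j) = if i = j then (1 : ℂ) else 0 :=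
    orthonormal_iff_ite.1 hw
  refine ⟨(-ω) • innerSL ℂ (w 0) + ∑' n, f n, ?_, ?_⟩
  · have h1 : (∑' n, f n) (w 0) = 0 := by
      refine (hS (w 0)).unique ?_
      have h2 : (fun n => c n * inner ℂ (w (n + 1)) (w 0)) = fun _ => (0 : ℂ) := by
        funext n
        rw [ho, if_neg (Nat.succ_ne_zero n), mul_zero]
      rw [h2]
      exact hasSum_zero
    rw [_root_.add_apply, _root_.smul_apply, innerSL_apply_apply, h1, ho,
      if_pos rfl, smul_eq_mul, mul_one, add_zero]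
  · intro m
    have h1 : (∑' n, f n) (w (m + 1)) = c m := by
      refine (hS (w (m + 1))).unique ?_
      have h2 : (fun n => c n * inner ℂ (w (n + 1)) (w (m + 1))) =
          fun n => if n = m then c m else 0 := by
        funext n
        rw [ho]
        by_cases h : n = m
        · rw [if_pos h, if_pos (by rw [h]), mul_one, h]
        · rw [if_neg h, if_neg (fun h' => h (Nat.succ_injective h')), mul_zero]
      rw [h2]
      exact hasSum_ite_eq m (c m)
    rw [_root_.add_apply, _root_.smul_apply, innerSL_apply_apply, h1, ho,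
      if_neg (Nat.succ_ne_zero m).symm, smul_zero, zero_add]

/-- Row Funct. PROOF: Let `c n = (n+1) (ω - s n)`, `‖c n‖ ≤ 2⁻ⁿ`. The functional
`h₁ = - ω ⟪w 0, ·⟫ + ∑' n, c n ⟪w (n+1), ·⟫` (absolutely convergent `tsum` of
`c n • innerSL ℂ (w (n+1))`, norms at most `2⁻ⁿ`) has `h₁ (w 0) = - ω`, `h₁ (w (n+1)) = c n`.
`h₀`: bounded, `h₀ = 0` on `W`, `h₀ v0 = 1` (a multiple of the inner product with
a vector of `Wᗮ`). `h = h₁ + (1 - h₁ v0) h₀`: `h v0 = 1`,
`h (w 0) = - ω`, `h (w (n+1)) = c n`. Then `h (s n v0 + w 0 + (n+1)⁻¹ w (n+1)) = 0` for all `n`, so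
`h = 0` on the closed span, but `h (v0 + w 0) = 1 - ω ≠ 0`. -/
theorem funct {v0 : E} {W : Submodule ℂ E} (hW : IsClosed (W : Set E)) (hv0 : v0 ∉ W)
    {w : ℕ → E} (hw : Orthonormal ℂ w) (hwW : ∀ n, w n ∈ W) {ω : ℂ} (hω : ω ≠ 1) {s : ℕ → ℂ}
    (hs : ∀ n : ℕ, ((n : ℝ) + 1) * ‖s n - ω‖ ≤ (1 / 2) ^ n) :
    v0 + w 0 ∉ (Submodule.span ℂ (Set.range fun n : ℕ =>
      s n • v0 + w 0 + ((n : ℂ) + 1)⁻¹ • w (n + 1))).topologicalClosure := by
  have hc : ∀ n : ℕ, ‖((n : ℂ) + 1) * (ω - s n)‖ ≤ (1 / 2 : ℝ) ^ n := by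
    intro n
    have h1 : ‖((n : ℂ) + 1)‖ = (n : ℝ) + 1 := by
      have h2 : ((n : ℂ) + 1) = ((n + 1 : ℕ) : ℂ) := by push_cast; rfl
      rw [h2, Complex.norm_natCast]
      push_cast
      rfl
    rw [norm_mul, h1, norm_sub_rev]
    exact hs n
  obtain ⟨h0, h0v, h0W⟩ := exists_h0 hW hv0
  obtain ⟨h1, h1w, h1c⟩ := exists_h1 hw ω hc
  set h : E →L[ℂ] ℂ := h1 + (1 - h1 v0) • h0 with hh
  have e1 : h v0 = 1 := by
    rw [hh, _root_.add_apply, _root_.smul_apply, h0v, smul_eq_mul]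
    ring
  have e2 : h (w 0) = -ω := by
    rw [hh, _root_.add_apply, _root_.smul_apply, h0W _ (hwW 0), h1w,
      smul_zero, add_zero]
  have e3 : ∀ n : ℕ, h (w (n + 1)) = ((n : ℂ) + 1) * (ω - s n) := by
    intro n
    rw [hh, _root_.add_apply, _root_.smul_apply, h0W _ (hwW (n + 1)),
      h1c, smul_zero, add_zero]
  have hle : (Submodule.span ℂ (Set.range fun n : ℕ =>
      s n • v0 + w 0 + ((n : ℂ) + 1)⁻¹ • w (n + 1))).topologicalClosure ≤
      LinearMap.ker (h : E →ₗ[ℂ] ℂ) := by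
    refine Submodule.topologicalClosure_minimal _ ?_ h.isClosed_ker
    rw [Submodule.span_le]
    rintro _ ⟨n, rfl⟩
    have hn : ((n : ℂ) + 1) ≠ 0 := Nat.cast_add_one_ne_zero n
    change h (s n • v0 + w 0 + ((n : ℂ) + 1)⁻¹ • w (n + 1)) = 0
    rw [map_add, map_add, map_smul, map_smul, e1, e2, e3, smul_eq_mul, smul_eq_mul,
      inv_mul_cancel_left₀ hn]
    ring
  intro hmem
  have h2 : h (v0 + w 0) = 0 := hle hmem
  rw [map_add, e1, e2] at h2
  apply hω
  linear_combination -h2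

end Pool.Agent.Lib.B06970
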