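import Mathlib

set_option autoImplicit false

namespace Pool.Agent.Lib.B06970

variable {H : Type*} [NormedAddCommGroup H] [NormedSpace ℂ H]

/-- Row Glide. PROOF: `z k := (F k).sum fun n x => D n x ∈ X`, and
`g - z k = (g - ∑ F k n) - ∑ (D n - 1) (F k n)` has norm at most
`1/(k+1) + ∑_{n ≥ k} (1/2)^n ≤ 1/(k+1) + 2 (1/2)^k → 0`; `X` is closed. -/
theorem glide {X : Submodule ℂ H} (hX : IsClosed (X : Set H)) {g : H} {F : ℕ → ℕ →₀ H}
    (h0 : ∀ k n, n < k → F k n = 0)
    (happ : ∀ k : ℕ, ‖g - (F k).sum fun _ z => z‖ ≤ 1 / ((k : ℝ) + 1))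
    {D : ℕ → H →L[ℂ] H} (hD : ∀ k n, k ≤ n → ‖D n - 1‖ * ‖F k n‖ ≤ (1 / 2 : ℝ) ^ n)
    (hX' : ∀ k n, D n (F k n) ∈ X) : g ∈ X := by
  have hb : ∀ k, ‖g - (F k).sum fun n x => D n x‖ ≤ 1 / ((k : ℝ) + 1) + 2 * (1 / 2 : ℝ) ^ k := by
    intro k
    have h1 : g - (F k).sum (fun n x => D n x) =
        (g - (F k).sum fun _ z => z) - ∑ n ∈ (F k).support, (D n - 1) (F k n) := by
      simp only [Finsupp.sum]
      rw [sub_sub, ← Finset.sum_add_distrib]
      congr 1
      refine Finset.sum_congr rfl fun n _ => ?_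
      simp
    have h2 : ‖∑ n ∈ (F k).support, (D n - 1) (F k n)‖ ≤ 2 * (1 / 2 : ℝ) ^ k := by
      have h3 : ∀ n ∈ (F k).support, k ≤ n := by
        intro n hn
        by_contra hlt
        exact (Finsupp.mem_support_iff.mp hn) (h0 k n (not_le.mp hlt))
      calc ‖∑ n ∈ (F k).support, (D n - 1) (F k n)‖
          ≤ ∑ n ∈ (F k).support, ‖(D n - 1) (F k n)‖ := norm_sum_le _ _
        _ ≤ ∑ n ∈ (F k).support, (1 / 2 : ℝ) ^ n := by
            refine Finset.sum_le_sum fun n hn => ?_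
            exact ((D n - 1).le_opNorm _).trans (hD k n (h3 n hn))
        _ ≤ ∑ n ∈ Finset.Ico k ((F k).support.sup id + 1), (1 / 2 : ℝ) ^ n := by
            refine Finset.sum_le_sum_of_subset_of_nonneg ?_ fun n _ _ => by positivity
            intro n hn
            rw [Finset.mem_Ico]
            exact ⟨h3 n hn, Nat.lt_succ_of_le (Finset.le_sup (f := id) hn)⟩
        _ ≤ (1 / 2 : ℝ) ^ k / (1 - 1 / 2) :=
            geom_sum_Ico_le_of_lt_one (by norm_num) (by norm_num)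
        _ = 2 * (1 / 2 : ℝ) ^ k := by ring
    rw [h1]
    exact (norm_sub_le _ _).trans (add_le_add (happ k) h2)
  have hlim : Filter.Tendsto (fun k => (F k).sum fun n x => D n x) Filter.atTop (nhds g) := by
    rw [tendsto_iff_norm_sub_tendsto_zero]
    have h4 : Filter.Tendsto (fun k : ℕ => 1 / ((k : ℝ) + 1) + 2 * (1 / 2 : ℝ) ^ k) Filter.atTop
        (nhds (0 + 2 * 0)) :=
      tendsto_one_div_add_atTop_nhds_zero_nat.add
        ((tendsto_pow_atTop_nhds_zero_of_lt_one (by norm_num) (by norm_num)).const_mul 2)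
    rw [mul_zero, add_zero] at h4
    refine squeeze_zero (fun k => norm_nonneg _) (fun k => ?_) h4
    rw [norm_sub_rev]
    exact hb k
  refine hX.mem_of_tendsto hlim (Filter.Eventually.of_forall fun k => ?_)
  exact Submodule.sum_mem _ fun n _ => hX' k n

end Pool.Agent.Lib.B06970
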