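import Mathlib

set_option autoImplicit false

namespace Pool.Agent.Lib.B06970

/-- Row HomC. PROOF: `s t ≠ 0`, `s (-t) = (s t)⁻¹`. It is enough: continuous at `0`. If not, there
are `ε₀ > 0` and, for every `δ > 0`, `|t| < δ` with `‖s t - 1‖ ≥ ε₀`; replacing `t` by `-t`
if `‖s t‖ > 1`, `‖s t‖ ≤ 1` and `‖s t - 1‖ ≥ ε₁ = min (ε₀/2) (1/2)`. By compactness of
`{z | ‖z‖ ≤ 1, ‖z - 1‖ ≥ ε₁}` a subsequence of `s (t n)`, `t n → 0`, converges to some `ω ≠ 1`,
against `h`. -/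
theorem hom_cont {s : ℝ → ℂ} (h1 : s 0 = 1) (hadd : ∀ x y, s (x + y) = s x * s y)
    (h : ∀ ω : ℂ, ω ≠ 1 → ¬ ∀ ε : ℝ, 0 < ε → ∃ t : ℝ, |t| ≤ ε ∧ ‖s t - ω‖ ≤ ε) :
    Continuous s := by
  have hinv : ∀ t, s t * s (-t) = 1 := by
    intro t
    rw [← hadd, add_neg_cancel, h1]
  have key : Filter.Tendsto s (nhds 0) (nhds 1) := by
    rw [Metric.tendsto_nhds_nhds]
    by_contra hcon
    push Not at hcon
    obtain ⟨ε₀, hε₀, hbad⟩ := hcon
    obtain ⟨ε₁, hε₁def⟩ : ∃ ε₁ : ℝ, ε₁ = min (ε₀ / 2) (1 / 2) := ⟨_, rfl⟩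
    have hε₁ : 0 < ε₁ := by
      rw [hε₁def]
      exact lt_min (by linarith) (by norm_num)
    have hl : ε₁ ≤ ε₀ / 2 := by rw [hε₁def]; exact min_le_left _ _
    have hr : ε₁ ≤ 1 / 2 := by rw [hε₁def]; exact min_le_right _ _
    have hbad' : ∀ δ : ℝ, 0 < δ → ∃ t : ℝ, |t| < δ ∧ ‖s t‖ ≤ 1 ∧ ε₁ ≤ ‖s t - 1‖ := by
      intro δ hδ
      obtain ⟨t, ht, htb⟩ := hbad δ hδ
      rw [Real.dist_eq, sub_zero] at ht
      rw [dist_eq_norm] at htb
      by_cases hle : ‖s t‖ ≤ 1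
      · exact ⟨t, ht, hle, by linarith⟩
      · push Not at hle
        have hprod : ‖s t‖ * ‖s (-t)‖ = 1 := by rw [← norm_mul, hinv, norm_one]
        have hm0 : 0 ≤ ‖s (-t)‖ := norm_nonneg _
        have hm1 : ‖s (-t)‖ ≤ 1 := by nlinarith
        refine ⟨-t, by rwa [abs_neg], hm1, ?_⟩
        have e : s (-t) - 1 = s (-t) * (1 - s t) := by
          have := hinv t
          linear_combination this
        by_cases h2 : ‖s t‖ ≤ 2
        · have h3 : 1 / 2 ≤ ‖s (-t)‖ := by nlinarith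
          rw [e, norm_mul, norm_sub_rev]
          nlinarith [norm_nonneg (s t - 1)]
        · push Not at h2
          have h3 : ‖s (-t)‖ ≤ 1 / 2 := by nlinarith
          have h4 : 1 - ‖s (-t)‖ ≤ ‖s (-t) - 1‖ := by
            have h5 := norm_sub_norm_le (1 : ℂ) (s (-t))
            rw [norm_one, norm_sub_rev] at h5
            exact h5
          linarith
    have hseq : ∀ n : ℕ, ∃ t : ℝ, |t| < 1 / ((n : ℝ) + 1) ∧ ‖s t‖ ≤ 1 ∧ ε₁ ≤ ‖s t - 1‖ :=
      fun n => hbad' _ (by positivity)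
    choose t ht1 ht2 ht3 using hseq
    obtain ⟨ω, -, φ, hφ, hlim⟩ := (isCompact_closedBall (0 : ℂ) 1).tendsto_subseq
      (x := fun n => s (t n)) (fun n => by
        rw [mem_closedBall_zero_iff]
        exact ht2 n)
    have hω : ε₁ ≤ ‖ω - 1‖ := by
      have h5 : Filter.Tendsto (fun n => ‖s (t (φ n)) - 1‖) Filter.atTop (nhds ‖ω - 1‖) :=
        (hlim.sub_const 1).norm
      exact ge_of_tendsto' h5 fun n => ht3 (φ n)
    have hω1 : ω ≠ 1 := by
      intro h0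
      rw [h0, sub_self, norm_zero] at hω
      linarith
    apply h ω hω1
    intro ε hε
    have h6 : ∀ᶠ n in Filter.atTop, dist (s (t (φ n))) ω < ε :=
      (Metric.tendsto_nhds.1 hlim) ε hε
    have h7 : Filter.Tendsto (fun n : ℕ => 1 / (((φ n : ℕ) : ℝ) + 1)) Filter.atTop (nhds 0) :=
      tendsto_one_div_add_atTop_nhds_zero_nat.comp hφ.tendsto_atTop
    have h8 : ∀ᶠ n in Filter.atTop, 1 / (((φ n : ℕ) : ℝ) + 1) < ε :=
      (tendsto_order.1 h7).2 ε hε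
    obtain ⟨n, hn1, hn2⟩ := (h6.and h8).exists
    refine ⟨t (φ n), (ht1 (φ n)).le.trans hn2.le, ?_⟩
    rw [← dist_eq_norm]
    exact hn1.le
  rw [continuous_iff_continuousAt]
  intro x
  have h2 : Filter.Tendsto (fun y => y - x) (nhds x) (nhds 0) := by
    have h5 : Filter.Tendsto (fun y : ℝ => y - x) (nhds x) (nhds (x - x)) :=
      Filter.tendsto_id.sub tendsto_const_nhds
    rwa [sub_self] at h5
  have h3 : Filter.Tendsto (fun y => s x * s (y - x)) (nhds x) (nhds (s x * 1)) :=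
    (key.comp h2).const_mul (s x)
  rw [mul_one] at h3
  refine h3.congr fun y => ?_
  rw [← hadd]
  congr 1
  ring

end Pool.Agent.Lib.B06970
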