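import Pool.Agent.Lib.B06970.Funct
import Pool.Agent.Lib.B06970.Approx
import Pool.Agent.Lib.B06970.Glide

set_option autoImplicit false

namespace Pool.Agent.Lib.B06970

open Submodule Pool.Agent.Results.MP_b06970_an.Dichotomy

variable {E : Type*} [NormedAddCommGroup E] [InnerProductSpace ℂ E] [CompleteSpace E]
variable {H : Type*} [NormedAddCommGroup H] [InnerProductSpace ℂ H] {A : H →L[ℂ] H}

omit [CompleteSpace E] in
private theorem exists_orthonormal (Y : Submodule ℂ E) (hY : ¬ FiniteDimensional ℂ Y) :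
    ∃ w : ℕ → E, Orthonormal ℂ w ∧ ∀ n, w n ∈ Y := by
  classical
  let b := Module.Basis.ofVectorSpace ℂ Y
  have hinf : Infinite (Module.Basis.ofVectorSpaceIndex ℂ Y) := by
    by_contra hcon
    rw [not_infinite_iff_finite] at hcon
    exact hY (Module.Finite.of_basis b)
  let emb := Infinite.natEmbedding (Module.Basis.ofVectorSpaceIndex ℂ Y)
  have hli : LinearIndependent ℂ (fun n : ℕ => b (emb n)) :=
    b.linearIndependent.comp emb emb.injective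
  let v := InnerProductSpace.gramSchmidtNormed ℂ (fun n : ℕ => b (emb n))
  have hv : Orthonormal ℂ v := InnerProductSpace.gramSchmidtNormed_orthonormal hli
  exact ⟨fun n => (v n : E), hv.comp_linearIsometry Y.subtypeₗᵢ, fun n => (v n).2⟩

/-- Row Hump (against the stubs). PROOF: orthonormal `w : ℕ → E` in `W` (infinite-dimensional),
`y n = v0 + w 0 + (n+1)⁻¹ w (n+1) → v0 + w 0`; `g ≠ 0` in `N e (v0 + w 0)`; `F k` from `approx` with
`δ = 1/(k+1)`; for each `n` choose from `h` `D n, s n` with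
`‖D n - 1‖ * (∑ k ≤ n ‖F k n‖ + 1) ≤ (1/2)^n` and `(n+1) ‖s n - ω‖ ≤ (1/2)^n`.
`K = closed span of s n v0 + w 0 + (n+1)⁻¹ w (n+1)`, `X = (e.symm K).1`: `D n (F k n) ∈
N e (s n v0 + (w 0 + (n+1)⁻¹ w (n+1))) ≤ X`. By `glide`, `g ∈ X`, so `N e (v0 + w 0) ⊓ X ≠ ⊥`, by
`atom` `N e (v0 + w 0) ≤ X`, so `v0 + w 0 ∈ K` (`N_le`), contradicting `funct`. -/
theorem hump (e : LatInv A ≃o ClosedSubmodule ℂ E) {v0 : E} {W : ClosedSubmodule ℂ E}
    (hv0 : v0 ∉ W) (hinf : ¬ FiniteDimensional ℂ W.toSubmodule) {ω : ℂ} (hω : ω ≠ 1)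
    (h : ∀ ε : ℝ, 0 < ε → ∃ (D : H →L[ℂ] H) (s : ℂ), Sc e v0 W D s ∧ ‖D - 1‖ ≤ ε ∧
      ‖s - ω‖ ≤ ε) : False := by
  classical
  obtain ⟨w, hw, hwW⟩ := exists_orthonormal W.toSubmodule hinf
  have hwW' : ∀ n, w n ∈ W := hwW
  -- the vectors tending to `v0 + w 0`
  set y : ℕ → E := fun n => v0 + (w 0 + ((n : ℂ) + 1)⁻¹ • w (n + 1)) with hy
  have hlim : Filter.Tendsto y Filter.atTop (nhds (v0 + w 0)) := by
    have h1 : Filter.Tendsto (fun n : ℕ => ((n : ℂ) + 1)⁻¹ • w (n + 1)) Filter.atTop (nhds 0) := by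
      rw [tendsto_zero_iff_norm_tendsto_zero]
      have h2 : ∀ n : ℕ, ‖((n : ℂ) + 1)⁻¹ • w (n + 1)‖ = 1 / ((n : ℝ) + 1) := by
        intro n
        rw [norm_smul, hw.1, mul_one, norm_inv, one_div]
        congr 1
        have h3 : ((n : ℂ) + 1) = (((n : ℝ) + 1 : ℝ) : ℂ) := by push_cast; ring
        rw [h3, Complex.norm_real, Real.norm_eq_abs, abs_of_nonneg (by positivity)]
      simp only [h2]
      exact tendsto_one_div_add_atTop_nhds_zero_nat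
    have h4 := (tendsto_const_nhds (x := v0)).add ((tendsto_const_nhds (x := w 0)).add h1)
    rw [add_zero] at h4
    exact h4
  -- a nonzero vector of the limit atom
  have hne : v0 + w 0 ≠ 0 := by
    intro h0
    apply hv0
    have h1 : v0 = -(w 0) := eq_neg_of_add_eq_zero_left h0
    rw [h1]
    exact W.toSubmodule.neg_mem (hwW 0)
  obtain ⟨g, hg, hg0⟩ : ∃ g ∈ N e (v0 + w 0), g ≠ 0 := by
    apply Submodule.exists_mem_ne_zero_of_ne_bot
    intro h0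
    exact hne (N_eq_bot e h0)
  -- the approximating sums
  have hF : ∀ k : ℕ, ∃ f : ℕ →₀ H, (∀ n, f n ∈ N e (y n)) ∧ (∀ n, n < k → f n = 0) ∧
      ‖g - f.sum fun _ z => z‖ ≤ 1 / ((k : ℝ) + 1) :=
    fun k => approx e hlim hg k (by positivity)
  choose F hFN hF0 hFa using hF
  -- the operators
  have hch : ∀ n : ℕ, ∃ (D : H →L[ℂ] H) (s : ℂ), Sc e v0 W D s ∧
      ‖D - 1‖ ≤ (1 / 2 : ℝ) ^ n / (((n : ℝ) + 1) * (∑ k ∈ Finset.range (n + 1), ‖F k n‖ + 1)) ∧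
      ‖s - ω‖ ≤ (1 / 2 : ℝ) ^ n / (((n : ℝ) + 1) * (∑ k ∈ Finset.range (n + 1), ‖F k n‖ + 1)) := by
    intro n
    apply h
    have h1 : 0 ≤ ∑ k ∈ Finset.range (n + 1), ‖F k n‖ := Finset.sum_nonneg fun _ _ => norm_nonneg _
    positivity
  choose D s hSc hDs hss using hch
  have hD : ∀ k n, k ≤ n → ‖D n - 1‖ * ‖F k n‖ ≤ (1 / 2 : ℝ) ^ n := by
    intro k n hkn
    have h1 : 0 ≤ ∑ k ∈ Finset.range (n + 1), ‖F k n‖ := Finset.sum_nonneg fun _ _ => norm_nonneg _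
    have h2 : ‖F k n‖ ≤ ∑ k ∈ Finset.range (n + 1), ‖F k n‖ :=
      Finset.single_le_sum (f := fun k => ‖F k n‖) (fun _ _ => norm_nonneg _)
        (Finset.mem_range.mpr (Nat.lt_succ_of_le hkn))
    have h3 : ‖F k n‖ ≤ ((n : ℝ) + 1) * (∑ k ∈ Finset.range (n + 1), ‖F k n‖ + 1) := by
      have h4 : (0 : ℝ) ≤ n := Nat.cast_nonneg n
      nlinarith
    have h5 : 0 < ((n : ℝ) + 1) * (∑ k ∈ Finset.range (n + 1), ‖F k n‖ + 1) := by positivity
    calc ‖D n - 1‖ * ‖F k n‖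
        ≤ (1 / 2 : ℝ) ^ n / (((n : ℝ) + 1) * (∑ k ∈ Finset.range (n + 1), ‖F k n‖ + 1)) *
          (((n : ℝ) + 1) * (∑ k ∈ Finset.range (n + 1), ‖F k n‖ + 1)) :=
          mul_le_mul (hDs n) h3 (norm_nonneg _) (by positivity)
      _ = (1 / 2 : ℝ) ^ n := div_mul_cancel₀ _ h5.ne'
  have hs : ∀ n : ℕ, ((n : ℝ) + 1) * ‖s n - ω‖ ≤ (1 / 2) ^ n := by
    intro n
    have h1 : 0 ≤ ∑ k ∈ Finset.range (n + 1), ‖F k n‖ := Finset.sum_nonneg fun _ _ => norm_nonneg _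
    have h5 : 0 < ((n : ℝ) + 1) * (∑ k ∈ Finset.range (n + 1), ‖F k n‖ + 1) := by positivity
    have h6 : (n : ℝ) + 1 ≤ ((n : ℝ) + 1) * (∑ k ∈ Finset.range (n + 1), ‖F k n‖ + 1) := by
      have h4 : (0 : ℝ) ≤ n := Nat.cast_nonneg n
      nlinarith
    calc ((n : ℝ) + 1) * ‖s n - ω‖
        ≤ (((n : ℝ) + 1) * (∑ k ∈ Finset.range (n + 1), ‖F k n‖ + 1)) *
          ((1 / 2 : ℝ) ^ n / (((n : ℝ) + 1) * (∑ k ∈ Finset.range (n + 1), ‖F k n‖ + 1))) :=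
          mul_le_mul h6 (hss n) (norm_nonneg _) h5.le
      _ = (1 / 2 : ℝ) ^ n := mul_div_cancel₀ _ h5.ne'
  -- the closed span
  set K : ClosedSubmodule ℂ E := ⟨(Submodule.span ℂ (Set.range fun n : ℕ =>
      s n • v0 + w 0 + ((n : ℂ) + 1)⁻¹ • w (n + 1))).topologicalClosure,
      Submodule.isClosed_topologicalClosure _⟩ with hK
  have hmemK : ∀ n : ℕ, s n • v0 + (w 0 + ((n : ℂ) + 1)⁻¹ • w (n + 1)) ∈ K := by
    intro n
    rw [← add_assoc]
    exact Submodule.le_topologicalClosure _ (Submodule.subset_span ⟨n, rfl⟩)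
  set X : Submodule ℂ H := (e.symm K).1 with hXdef
  have hXc : IsClosed (X : Set H) := (e.symm K).2.1
  have hXi : ∀ x ∈ X, A x ∈ X := (e.symm K).2.2
  have heX : e ⟨X, hXc, hXi⟩ = K := by
    have h1 : (⟨X, hXc, hXi⟩ : LatInv A) = e.symm K := rfl
    rw [h1, OrderIso.apply_symm_apply]
  have hX' : ∀ k n, D n (F k n) ∈ X := by
    intro k n
    have hWn : w 0 + ((n : ℂ) + 1)⁻¹ • w (n + 1) ∈ W :=
      W.toSubmodule.add_mem (hwW 0) (W.toSubmodule.smul_mem _ (hwW (n + 1)))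
    have h1 : D n (F k n) ∈ N e (s n • v0 + (w 0 + ((n : ℂ) + 1)⁻¹ • w (n + 1))) :=
      (hSc n _ hWn _).mpr (hFN k n)
    have h2 : N e (s n • v0 + (w 0 + ((n : ℂ) + 1)⁻¹ • w (n + 1))) ≤ X := by
      rw [N_le e hXc hXi, heX]
      exact hmemK n
    exact h2 h1
  have hgX : g ∈ X := glide hXc hF0 hFa hD hX'
  -- the atom lies in `X`
  have hPc : IsClosed ((N e (v0 + w 0) ⊓ X : Submodule ℂ H) : Set H) :=
    (N_closed e _).inter hXc
  have hPi : ∀ x ∈ (N e (v0 + w 0) ⊓ X : Submodule ℂ H), A x ∈ (N e (v0 + w 0) ⊓ X : Submodule ℂ H) :=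
    fun x hx => ⟨N_inv e _ x hx.1, hXi x hx.2⟩
  rcases atom e hPc hPi inf_le_left with h1 | h1
  · have h2 : g ∈ (N e (v0 + w 0) ⊓ X : Submodule ℂ H) := ⟨hg, hgX⟩
    rw [h1, Submodule.mem_bot] at h2
    exact hg0 h2
  · have h2 : N e (v0 + w 0) ≤ X := by
      rw [← h1]
      exact inf_le_right
    rw [N_le e hXc hXi, heX] at h2
    exact funct W.isClosed hv0 hw hwW hω hs h2

end Pool.Agent.Lib.B06970
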