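import Pool.Agent.Results.MP_b06970_an.Dichotomy

/-! Automorphisms of the lattice of closed subspaces which fix a line and all lines of a
complementary closed subspace. -/

set_option autoImplicit false

namespace Pool.Agent.Lib.B06970

open Submodule Pool.Agent.Results.MP_b06970_an.Dichotomy

variable {E : Type*} [NormedAddCommGroup E] [InnerProductSpace ℂ E]

/-- the plane through `u` and `v` -/
noncomputable def pl (u v : E) : ClosedSubmodule ℂ E :=
  ⟨(ℂ ∙ u) ⊔ (ℂ ∙ v), Submodule.closed_of_finiteDimensional _⟩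

lemma mem_pl {u v x : E} : x ∈ pl u v ↔ ∃ a b : ℂ, a • u + b • v = x := by
  change x ∈ (ℂ ∙ u) ⊔ (ℂ ∙ v) ↔ _
  rw [Submodule.mem_sup]
  constructor
  · rintro ⟨y, hy, z, hz, rfl⟩
    obtain ⟨a, rfl⟩ := Submodule.mem_span_singleton.mp hy
    obtain ⟨b, rfl⟩ := Submodule.mem_span_singleton.mp hz
    exact ⟨a, b, rfl⟩
  · rintro ⟨a, b, rfl⟩
    exact ⟨a • u, Submodule.smul_mem _ _ (Submodule.mem_span_singleton_self u), b • v,
      Submodule.smul_mem _ _ (Submodule.mem_span_singleton_self v), rfl⟩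

lemma pl_le {u v : E} {Z : ClosedSubmodule ℂ E} : pl u v ≤ Z ↔ ln u ≤ Z ∧ ln v ≤ Z := by
  rw [ln_le, ln_le]
  constructor
  · intro h
    exact ⟨h (mem_pl.2 ⟨1, 0, by simp⟩), h (mem_pl.2 ⟨0, 1, by simp⟩)⟩
  · rintro ⟨h1, h2⟩ x hx
    obtain ⟨a, b, rfl⟩ := mem_pl.1 hx
    exact Z.toSubmodule.add_mem (Z.toSubmodule.smul_mem a h1) (Z.toSubmodule.smul_mem b h2)

lemma ln_smul {c : ℂ} (hc : c ≠ 0) (u : E) : ln (c • u) = ln u := by
  apply le_antisymm
  · rw [ln_le, mem_ln]
    exact Submodule.smul_mem _ _ (Submodule.mem_span_singleton_self u)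
  · rw [ln_le, mem_ln, Submodule.mem_span_singleton]
    exact ⟨c⁻¹, by rw [smul_smul, inv_mul_cancel₀ hc, one_smul]⟩

variable (Ψ : ClosedSubmodule ℂ E ≃o ClosedSubmodule ℂ E)

lemma map_pl {u v u' v' x : E} (hu : Ψ (ln u) = ln u') (hv : Ψ (ln v) = ln v')
    (hx : x ∈ pl u v) : Ψ (ln x) ≤ pl u' v' := by
  have h1 : ln x ≤ pl u v := ln_le.2 hx
  have h2 : Ψ (pl u v) ≤ pl u' v' := by
    rw [← OrderIso.le_symm_apply, pl_le, OrderIso.le_symm_apply, OrderIso.le_symm_apply, hu, hv]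
    exact ⟨ln_le.2 (mem_pl.2 ⟨1, 0, by simp⟩), ln_le.2 (mem_pl.2 ⟨0, 1, by simp⟩)⟩
  exact (Ψ.monotone h1).trans h2

lemma map_ln {u : E} (hu : u ≠ 0) : ∃ u' : E, u' ≠ 0 ∧ Ψ (ln u) = ln u' := by
  by_cases h : ∃ u' ∈ Ψ (ln u), u' ≠ 0
  · obtain ⟨u', hu', h0⟩ := h
    refine ⟨u', h0, ?_⟩
    have h1 : ln u' ≤ Ψ (ln u) := ln_le.2 hu'
    have h2 : Ψ.symm (ln u') ≤ ln u := by
      rw [OrderIso.symm_apply_le]; exact h1
    apply le_antisymm _ h1
    rw [← OrderIso.le_symm_apply]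
    -- `Ψ.symm (ln u')` is nonzero
    by_cases h3 : ∃ y ∈ Ψ.symm (ln u'), y ≠ 0
    · obtain ⟨y, hy, hy0⟩ := h3
      have h4 : y ∈ ln u := h2 hy
      rw [mem_ln] at h4
      obtain ⟨c, rfl⟩ := Submodule.mem_span_singleton.mp h4
      have hc : c ≠ 0 := by
        rintro rfl
        exact hy0 (zero_smul _ _)
      rw [← ln_smul hc u]
      exact ln_le.2 hy
    · exfalso
      push Not at h3
      have h5 : Ψ.symm (ln u') ≤ Ψ.symm (ln 0) := by
        intro y hy
        rw [h3 y hy]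
        exact (Ψ.symm (ln 0)).toSubmodule.zero_mem
      have h6 : ln u' ≤ ln 0 := by
        simpa using h5
      rw [ln_le, mem_ln, Submodule.span_zero_singleton, Submodule.mem_bot] at h6
      exact h0 h6
  · exfalso
    push Not at h
    have h5 : Ψ (ln u) ≤ Ψ (ln 0) := by
      intro y hy
      rw [h y hy]
      exact (Ψ (ln 0)).toSubmodule.zero_mem
    have h6 : ln u ≤ ln 0 := by
      simpa using h5
    rw [ln_le, mem_ln, Submodule.span_zero_singleton, Submodule.mem_bot] at h6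
    exact hu h6

/-- the scalar of the automorphism -/
theorem exists_scalar {v0 : E} {W : ClosedSubmodule ℂ E} (hv0 : v0 ∉ W)
    (h0 : Ψ (ln v0) = ln v0) (hW : ∀ w ∈ W, Ψ (ln w) = ln w)
    (hdim : ∀ w ∈ W, ∃ w' ∈ W, w' ∉ (ℂ ∙ w)) :
    ∃ s : ℂ, s ≠ 0 ∧ ∀ w ∈ W, Ψ (ln (v0 + w)) = ln (s • v0 + w) := by
  have hv00 : v0 ≠ 0 := by
    rintro rfl
    exact hv0 W.toSubmodule.zero_mem
  have hone : ∀ w ∈ W, w ≠ 0 → ∃ s : ℂ, s ≠ 0 ∧ Ψ (ln (v0 + w)) = ln (s • v0 + w) := by
    intro w hw hw0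
    have hne : v0 + w ≠ 0 := by
      intro h
      apply hv0
      rw [eq_neg_of_add_eq_zero_left h]
      exact W.toSubmodule.neg_mem hw
    obtain ⟨u', hu'0, hu'⟩ := map_ln Ψ hne
    have h1 : Ψ (ln (v0 + w)) ≤ pl v0 w :=
      map_pl Ψ h0 (hW w hw) (mem_pl.2 ⟨1, 1, by simp⟩)
    have h2 : u' ∈ pl v0 w := by
      apply h1
      rw [hu', mem_ln]
      exact Submodule.mem_span_singleton_self u'
    obtain ⟨a, b, hab⟩ := mem_pl.1 h2
    have ha : a ≠ 0 := by
      rintro rfl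
      rw [zero_smul, zero_add] at hab
      have hb : b ≠ 0 := by
        rintro rfl
        exact hu'0 (by rw [← hab, zero_smul])
      have h3 : Ψ (ln (v0 + w)) = Ψ (ln w) := by
        rw [hu', ← hab, ln_smul hb, hW w hw]
      have h4 : v0 + w ∈ ln w := by
        rw [← Ψ.injective h3, mem_ln]
        exact Submodule.mem_span_singleton_self _
      rw [mem_ln] at h4
      obtain ⟨c, hc⟩ := Submodule.mem_span_singleton.mp h4
      apply hv0
      have : v0 = c • w - w := by rw [hc]; abel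
      rw [this]
      exact W.toSubmodule.sub_mem (W.toSubmodule.smul_mem c hw) hw
    have hb : b ≠ 0 := by
      rintro rfl
      rw [zero_smul, add_zero] at hab
      have h3 : Ψ (ln (v0 + w)) = Ψ (ln v0) := by
        rw [hu', ← hab, ln_smul ha, h0]
      have h4 : v0 + w ∈ ln v0 := by
        rw [← Ψ.injective h3, mem_ln]
        exact Submodule.mem_span_singleton_self _
      rw [mem_ln] at h4
      obtain ⟨c, hc⟩ := Submodule.mem_span_singleton.mp h4
      have h5 : (c - 1) • v0 = w := by rw [sub_smul, one_smul, hc]; abel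
      have h6 : c - 1 ≠ 0 := by
        intro h
        rw [h, zero_smul] at h5
        exact hw0 h5.symm
      apply hv0
      have : v0 = (c - 1)⁻¹ • w := by rw [← h5, smul_smul, inv_mul_cancel₀ h6, one_smul]
      rw [this]
      exact W.toSubmodule.smul_mem _ hw
    refine ⟨a / b, div_ne_zero ha hb, ?_⟩
    have hbb : b * (a / b) = a := by field_simp
    rw [hu', ← hab, ← ln_smul hb ((a / b) • v0 + w), smul_add, smul_smul, hbb]
  have hsame : ∀ w ∈ W, ∀ w' ∈ W, w ≠ 0 → w' ∉ (ℂ ∙ w) → ∀ s s' : ℂ,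
      Ψ (ln (v0 + w)) = ln (s • v0 + w) → Ψ (ln (v0 + w')) = ln (s' • v0 + w') → s = s' := by
    intro w hw w' hw' hw0 hww' s s' hs hs'
    have h1 : Ψ (ln (w - w')) ≤ pl (s • v0 + w) (s' • v0 + w') :=
      map_pl Ψ hs hs' (mem_pl.2 ⟨1, -1, by module⟩)
    have h2 : w - w' ∈ pl (s • v0 + w) (s' • v0 + w') := by
      apply h1
      rw [hW _ (W.toSubmodule.sub_mem hw hw'), mem_ln]
      exact Submodule.mem_span_singleton_self _
    obtain ⟨a, b, hab⟩ := mem_pl.1 h2
    have h3 : (a * s + b * s') • v0 = (1 - a) • w - (1 + b) • w' := by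
      have e : (a * s + b * s') • v0 = (a • (s • v0 + w) + b • (s' • v0 + w')) - a • w - b • w' := by
        module
      rw [e, hab]
      module
    have h4 : a * s + b * s' = 0 := by
      by_contra hne
      apply hv0
      have : v0 = (a * s + b * s')⁻¹ • ((1 - a) • w - (1 + b) • w') := by
        rw [← h3, smul_smul, inv_mul_cancel₀ hne, one_smul]
      rw [this]
      exact W.toSubmodule.smul_mem _ (W.toSubmodule.sub_mem (W.toSubmodule.smul_mem _ hw)
        (W.toSubmodule.smul_mem _ hw'))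
    rw [h4, zero_smul] at h3
    have h5 : (1 + b) = 0 := by
      by_contra hne
      apply hww'
      rw [Submodule.mem_span_singleton]
      refine ⟨(1 + b)⁻¹ * (1 - a), ?_⟩
      have h3' : (1 - a) • w = (1 + b) • w' := sub_eq_zero.1 h3.symm
      rw [mul_smul, h3', smul_smul, inv_mul_cancel₀ hne, one_smul]
    rw [h5, zero_smul, sub_zero] at h3
    have h6 : 1 - a = 0 := by
      rcases smul_eq_zero.1 h3.symm with h | h
      · exact h
      · exact absurd h hw0
    have ha : a = 1 := (sub_eq_zero.1 h6).symm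
    have hb : b = -1 := by
      have := eq_neg_of_add_eq_zero_right h5
      exact this
    rw [ha, hb] at h4
    have : s - s' = 0 := by
      rw [← h4]; ring
    exact sub_eq_zero.1 this
  obtain ⟨w1, hw1, hw1'⟩ := hdim 0 W.toSubmodule.zero_mem
  have hw10 : w1 ≠ 0 := by
    rintro rfl
    exact hw1' (Submodule.zero_mem _)
  obtain ⟨s, hs0, hs⟩ := hone w1 hw1 hw10
  refine ⟨s, hs0, ?_⟩
  intro w hw
  by_cases hw0 : w = 0
  · rw [hw0, add_zero, add_zero, h0, ln_smul hs0]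
  · obtain ⟨s', hs'0, hs'⟩ := hone w hw hw0
    by_cases hdep : w ∈ (ℂ ∙ w1)
    · obtain ⟨w2, hw2, hw2'⟩ := hdim w1 hw1
      have hw20 : w2 ≠ 0 := by
        rintro rfl
        exact hw2' (Submodule.zero_mem _)
      obtain ⟨s2, hs20, hs2⟩ := hone w2 hw2 hw20
      have e1 : s = s2 := hsame w1 hw1 w2 hw2 hw10 hw2' s s2 hs hs2
      have hw3 : w2 ∉ (ℂ ∙ w) := by
        intro h
        apply hw2'
        obtain ⟨c, rfl⟩ := Submodule.mem_span_singleton.mp h
        exact Submodule.smul_mem _ _ hdep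
      have e2 : s' = s2 := hsame w hw w2 hw2 hw0 hw3 s' s2 hs' hs2
      rw [e1, ← e2]
      exact hs'
    · have e1 : s = s' := hsame w1 hw1 w hw hw10 hdep s s' hs hs'
      rw [e1]
      exact hs'

end Pool.Agent.Lib.B06970
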