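import Pool.Agent.Lib.B06970.Defs

set_option autoImplicit false

namespace Pool.Agent.Lib.B06970

open Submodule Pool.Agent.Results.MP_b06970_an.Dichotomy

variable {E : Type*} [NormedAddCommGroup E] [InnerProductSpace ℂ E]
variable {H : Type*} [NormedAddCommGroup H] [InnerProductSpace ℂ H] {A : H →L[ℂ] H}

/-- Row ScAlg. PROOF: take `w ∈ W`, `w ≠ 0` (`hdim 0`), `x ≠ 0` in `N e (v0 + w)` (`N_eq_bot`,
`v0 + w ≠ 0` as `v0 ∉ W`). If `s ≠ s'`, then `s v0 + w` is not in the line of `s' v0 + w`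
(`v0 ∉ W`, `w ≠ 0`), so `disj` gives `D x = 0 = D 0`. Here `D 0 = 0`, and `D x = 0` means
`D x ∈ N e (s v0 + 0 ...)`: use injectivity `hinj`. -/
theorem sc_unique (e : LatInv A ≃o ClosedSubmodule ℂ E) {v0 : E} {W : ClosedSubmodule ℂ E}
    (hv0 : v0 ∉ W) (hdim : ∀ w ∈ W, ∃ w' ∈ W, w' ∉ (ℂ ∙ w)) {D : H →L[ℂ] H}
    (hinj : ∀ x, D x = 0 → x = 0) {s s' : ℂ} (h : Sc e v0 W D s) (h' : Sc e v0 W D s') :
    s = s' := by
  obtain ⟨w, hw, hw0'⟩ := hdim 0 W.toSubmodule.zero_mem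
  have hw0 : w ≠ 0 := by
    rintro rfl
    exact hw0' (Submodule.zero_mem _)
  have hne : v0 + w ≠ 0 := by
    intro h1
    apply hv0
    rw [eq_neg_of_add_eq_zero_left h1]
    exact W.toSubmodule.neg_mem hw
  have hNne : N e (v0 + w) ≠ ⊥ := fun h1 => hne (N_eq_bot e h1)
  obtain ⟨x, hx, hx0⟩ := Submodule.exists_mem_ne_zero_of_ne_bot hNne
  by_contra hss
  have hnot : s • v0 + w ∉ (ℂ ∙ (s' • v0 + w)) := by
    intro h1
    obtain ⟨c, hc⟩ := Submodule.mem_span_singleton.mp h1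
    have h2 : (c * s' - s) • v0 = (1 - c) • w := by
      have e1 : (c * s' - s) • v0 = c • (s' • v0 + w) - c • w - s • v0 := by module
      rw [e1, hc]
      module
    have h3 : c * s' - s = 0 := by
      by_contra hne2
      apply hv0
      have h4 : v0 = (c * s' - s)⁻¹ • ((1 - c) • w) := by
        rw [← h2, smul_smul, inv_mul_cancel₀ hne2, one_smul]
      rw [h4]
      exact W.toSubmodule.smul_mem _ (W.toSubmodule.smul_mem _ hw)
    rw [h3, zero_smul] at h2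
    have h5 : 1 - c = 0 := by
      rcases smul_eq_zero.1 h2.symm with h6 | h6
      · exact h6
      · exact absurd h6 hw0
    have h6 : c = 1 := (sub_eq_zero.1 h5).symm
    rw [h6, one_mul] at h3
    exact hss (sub_eq_zero.1 h3).symm
  have h1 : D x ∈ N e (s • v0 + w) ⊓ N e (s' • v0 + w) :=
    ⟨(h w hw x).mpr hx, (h' w hw x).mpr hx⟩
  rw [disj e hnot, Submodule.mem_bot] at h1
  exact hx0 (hinj x h1)

lemma scalg_N_smul (e : LatInv A ≃o ClosedSubmodule ℂ E) {c : ℂ} (hc : c ≠ 0) (u : E) :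
    N e (c • u) = N e u := by
  unfold N
  rw [ln_smul hc]

/-- Row ScAlg. PROOF: `s₂ v0 + w = s₂ (v0 + s₂⁻¹ w)`, `N e (c u) = N e u` for `c ≠ 0`
(`ln_smul`). -/
theorem sc_mul (e : LatInv A ≃o ClosedSubmodule ℂ E) {v0 : E} {W : ClosedSubmodule ℂ E}
    {D₁ D₂ : H →L[ℂ] H} {s₁ s₂ : ℂ} (h2 : s₂ ≠ 0) (h₁ : Sc e v0 W D₁ s₁) (h₂ : Sc e v0 W D₂ s₂) :
    Sc e v0 W (D₁ * D₂) (s₁ * s₂) := by
  intro w hw x
  have hw' : s₂⁻¹ • w ∈ W := W.toSubmodule.smul_mem _ hw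
  have a1 := h₁ (s₂⁻¹ • w) hw' (D₂ x)
  have a2 := h₂ w hw x
  have e1 : s₂ • (s₁ • v0 + s₂⁻¹ • w) = (s₁ * s₂) • v0 + w := by
    rw [smul_add, smul_smul, smul_smul, mul_inv_cancel₀ h2, one_smul, mul_comm s₂ s₁]
  have e2 : s₂ • (v0 + s₂⁻¹ • w) = s₂ • v0 + w := by
    rw [smul_add, smul_smul, mul_inv_cancel₀ h2, one_smul]
  have b1 : N e ((s₁ * s₂) • v0 + w) = N e (s₁ • v0 + s₂⁻¹ • w) := by
    rw [← e1, scalg_N_smul e h2]
  have b2 : N e (s₂ • v0 + w) = N e (v0 + s₂⁻¹ • w) := by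
    rw [← e2, scalg_N_smul e h2]
  rw [b1]
  rw [b2] at a2
  exact a1.trans a2

/-- Row ScAlg. -/
theorem sc_one (e : LatInv A ≃o ClosedSubmodule ℂ E) (v0 : E) (W : ClosedSubmodule ℂ E) :
    Sc e v0 W (1 : H →L[ℂ] H) 1 := by
  intro w _ x
  rw [one_smul]
  exact Iff.rfl

end Pool.Agent.Lib.B06970
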