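import Pool.Agent.Lib.B06970.Psi
import Pool.Agent.Lib.B06970.ScAlg
import Pool.Agent.Lib.B06970.Hump
import Pool.Agent.Lib.B06970.ExpOp
import Pool.Agent.Lib.B06970.HomC
import Pool.Agent.Lib.SIr.Pure

set_option autoImplicit false

namespace Pool.Agent.Lib.B06970

open Submodule Pool.Agent.Results.MP_b06970_an.Dichotomy

variable {E : Type*} [NormedAddCommGroup E] [InnerProductSpace ℂ E] [CompleteSpace E]
variable {H : Type*} [NormedAddCommGroup H] [InnerProductSpace ℂ H] [CompleteSpace H]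
  {A : H →L[ℂ] H}

/-- Row OneParam (against the stubs). PROOF: `s t` from `exists_sc` and `Dop_adm`; `sc_unique`,
`sc_mul`, `Dop_add` give `s (x + y) = s x * s y` and `s 0 = 1`; `hump` and `Dop_cont` (at `0`) give
the hypothesis of `hom_cont`; `Pool.Agent.SIr.exp_of_hom`. (`hdim` from `hinf`: a closed
submodule contained in a line is finite-dimensional.) -/
theorem one_param (e : LatInv A ≃o ClosedSubmodule ℂ E) {P a : H →L[ℂ] H} (hPP : P * P = P)
    (haP : a * P = P * a) (hPA : ∀ x, P (A x) = A (P x)) (haA : ∀ x, a (A x) = A (a x))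
    {v0 : E} (hv0 : v0 ∉ e (kerL P hPA)) (hv0P : ∀ x ∈ N e v0, P x = x)
    (ha0 : ∀ x ∈ N e v0, a x ∈ N e v0)
    (hinf : ¬ FiniteDimensional ℂ (e (kerL P hPA)).toSubmodule) :
    ∃ c : ℂ, ∀ t : ℝ, Sc e v0 (e (kerL P hPA)) (Dop P a t) (Complex.exp (c * t)) := by
  have hdim : ∀ w ∈ e (kerL P hPA), ∃ w' ∈ e (kerL P hPA), w' ∉ (ℂ ∙ w) := by
    intro w _
    by_contra hcon
    push Not at hcon
    apply hinf
    have hle : (e (kerL P hPA)).toSubmodule ≤ (ℂ ∙ w) := fun y hy => hcon y hy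
    exact Submodule.finiteDimensional_of_le hle
  have hadm := fun t : ℝ => Dop_adm e hPP haP hPA haA hv0P ha0 t
  have hex := fun t : ℝ => exists_sc e hv0 hdim (hadm t)
  choose s hs0 hsc using hex
  have hinj : ∀ t : ℝ, ∀ x, Dop P a t x = 0 → x = 0 := by
    intro t x hx
    have h1 := (hadm t).left x
    rw [hx, map_zero] at h1
    exact h1.symm
  have h1 : s 0 = 1 := by
    have h2 := hsc 0
    rw [Dop_zero] at h2
    refine sc_unique e hv0 hdim (D := (1 : H →L[ℂ] H)) (fun x hx => ?_) h2 (sc_one e v0 _)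
    simpa using hx
  have hadd : ∀ x y, s (x + y) = s x * s y := by
    intro x y
    have h2 := hsc (x + y)
    have h3 := sc_mul e (hs0 y) (hsc x) (hsc y)
    rw [← Dop_add hPP haP] at h3
    exact sc_unique e hv0 hdim (hinj (x + y)) h2 h3
  have hcont : Continuous s := by
    apply hom_cont h1 hadd
    intro ω hω hall
    apply hump e hv0 hinf hω
    intro ε hε
    have hc : Filter.Tendsto (Dop P a) (nhds 0) (nhds 1) := by
      have h2 := (Dop_cont P a).tendsto 0
      rwa [Dop_zero] at h2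
    obtain ⟨δ, hδ, hδ'⟩ := Metric.tendsto_nhds_nhds.1 hc ε hε
    obtain ⟨t, ht, hts⟩ := hall (min (δ / 2) ε) (lt_min (by linarith) hε)
    refine ⟨Dop P a t, s t, hsc t, ?_, hts.trans (min_le_right _ _)⟩
    have h3 : dist t 0 < δ := by
      rw [Real.dist_eq, sub_zero]
      have := ht.trans (min_le_left _ _)
      linarith
    have h4 := hδ' h3
    rw [dist_eq_norm] at h4
    exact h4.le
  obtain ⟨c, hcs⟩ := Pool.Agent.SIr.exp_of_hom hcont hadd h1
  refine ⟨c, fun t => ?_⟩
  rw [← hcs t]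
  exact hsc t

end Pool.Agent.Lib.B06970
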