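import Pool.Agent.Lib.B06970.Defs

set_option autoImplicit false

namespace Pool.Agent.Lib.B06970

open Submodule Pool.Agent.Results.MP_b06970_an.Dichotomy

variable {E : Type*} [NormedAddCommGroup E] [InnerProductSpace ℂ E]
variable {H : Type*} [NormedAddCommGroup H] [InnerProductSpace ℂ H] {A : H →L[ℂ] H}

/-- the automorphism `M ↦ D M` of `Lat A` -/
private noncomputable def latD {D D' : H →L[ℂ] H} (hl : ∀ x, D' (D x) = x)
    (hr : ∀ x, D (D' x) = x) (hc : ∀ x, D (A x) = A (D x)) (hc' : ∀ x, D' (A x) = A (D' x)) :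
    LatInv A ≃o LatInv A where
  toFun M := ⟨M.1.comap (D' : H →ₗ[ℂ] H), M.2.1.preimage D'.continuous, by
    intro x hx
    rw [Submodule.mem_comap] at hx ⊢
    have h2 : (D' : H →ₗ[ℂ] H) (A x) = A (D' x) := hc' x
    rw [h2]
    exact M.2.2 _ hx⟩
  invFun M := ⟨M.1.comap (D : H →ₗ[ℂ] H), M.2.1.preimage D.continuous, by
    intro x hx
    rw [Submodule.mem_comap] at hx ⊢
    have h2 : (D : H →ₗ[ℂ] H) (A x) = A (D x) := hc x
    rw [h2]
    exact M.2.2 _ hx⟩
  left_inv M := by
    apply Subtype.ext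
    ext x
    change D' (D x) ∈ M.1 ↔ x ∈ M.1
    rw [hl]
  right_inv M := by
    apply Subtype.ext
    ext x
    change D (D' x) ∈ M.1 ↔ x ∈ M.1
    rw [hr]
  map_rel_iff' := by
    intro M N
    constructor
    · intro h x hx
      have h1 : D x ∈ (M.1.comap (D' : H →ₗ[ℂ] H)) := by
        change D' (D x) ∈ M.1
        rw [hl]; exact hx
      have h2 := h h1
      have h3 : D' (D x) ∈ N.1 := h2
      rwa [hl] at h3
    · intro h x hx
      exact h hx

/-- Row Psi. PROOF: the order automorphism `psi` of `LatInv A`, `psi M = {x | D' x in M}` (comap of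
`D'`; closed, invariant since `D'` commutes with `A`), inverse `M ↦ {x | D x in M}`;
`Ψ := e.symm.trans (psi.trans e)`. By `Adm`: `psi (N e v0) = N e v0`, `psi (N e w) = N e w` for
`w ∈ W`, so `Ψ (ln v0) = ln v0`, `Ψ (ln w) = ln w`, and `exists_scalar` (Lines.lean) gives `s`;
translate back: `Ψ (ln (v0 + w)) = ln (s • v0 + w)` means `psi (N e (v0+w)) = N e (s v0 + w)`,
i.e. `y ∈ N e (s v0 + w) ↔ D' y ∈ N e (v0 + w)`; put `y = D x`. -/
theorem exists_sc (e : LatInv A ≃o ClosedSubmodule ℂ E) {v0 : E} {W : ClosedSubmodule ℂ E}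
    (hv0 : v0 ∉ W) (hdim : ∀ w ∈ W, ∃ w' ∈ W, w' ∉ (ℂ ∙ w)) {D D' : H →L[ℂ] H}
    (hD : Adm e v0 W D D') : ∃ s : ℂ, s ≠ 0 ∧ Sc e v0 W D s := by
  have hc' : ∀ x, D' (A x) = A (D' x) := by
    intro x
    have h := hD.comm (D' x)
    rw [hD.right] at h
    rw [← hD.left (A (D' x)), h]
  set psi := latD hD.left hD.right hD.comm hc' with hpsi
  set Ψ : ClosedSubmodule ℂ E ≃o ClosedSubmodule ℂ E := (e.symm.trans psi).trans e with hΨ
  have hmem : ∀ (Q : ClosedSubmodule ℂ E) (x : H),
      x ∈ (e.symm (Ψ Q)).1 ↔ D' x ∈ (e.symm Q).1 := by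
    intro Q x
    rw [hΨ]
    simp only [OrderIso.trans_apply, OrderIso.symm_apply_apply]
    rfl
  have hln : ∀ u v : E, (∀ x, x ∈ N e v ↔ D' x ∈ N e u) → Ψ (ln u) = ln v := by
    intro u v h
    apply e.symm.injective
    apply Subtype.ext
    ext x
    exact (hmem (ln u) x).trans (h x).symm
  have h0 : Ψ (ln v0) = ln v0 := by
    apply hln
    intro x
    constructor
    · intro hx
      exact hD.atom0' x hx
    · intro hx
      have h1 := hD.atom0 _ hx
      rwa [hD.right] at h1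
  have hW : ∀ w ∈ W, Ψ (ln w) = ln w := by
    intro w hw
    apply hln
    intro x
    constructor
    · intro hx
      have h1 := hD.fix w hw x hx
      have h2 : D' x = x := by
        conv_lhs => rw [← h1]
        exact hD.left x
      rw [h2]
      exact hx
    · intro hx
      have h1 := hD.fix w hw _ hx
      rw [hD.right] at h1
      rw [h1]
      exact hx
  obtain ⟨s, hs0, hs⟩ := exists_scalar Ψ hv0 h0 hW hdim
  refine ⟨s, hs0, ?_⟩
  intro w hw x
  have h1 := hmem (ln (v0 + w)) (D x)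
  rw [hs w hw, hD.left] at h1
  exact h1

end Pool.Agent.Lib.B06970
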